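import Pool.Agent.Run7.h899.Defs

/-!
# General facts on divisors on metric graphs: the functional formula for the divisor of a rational
function, circle-valued characters, building rational functions
-/

set_option autoImplicit false

noncomputable section

namespace Run7.h899

open MetricGraph Finsupp

variable {G : MetricGraph}

namespace MetricGraph

/-- abbreviation for the vertex as a point -/
def vt (v : G.V) : G.Pt := Sum.inl v

/-- abbreviation for an interior point as a point -/
def ip (s : G.IPt) : G.Pt := Sum.inr s

/-- evaluation of a function on divisors -/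
def ev {A : Type*} [AddCommGroup A] (F : G.Pt → A) : G.Div →ₗ[ℤ] A := Finsupp.linearCombination ℤ F

theorem ev_single {A : Type*} [AddCommGroup A] (F : G.Pt → A) (p : G.Pt) (n : ℤ) :
    ev F (single p n) = n • F p := by
  simp [ev]

theorem ev_apply {A : Type*} [AddCommGroup A] (F : G.Pt → A) (D : G.Div) :
    ev F D = D.sum fun p n => n • F p := rfl

theorem degree_eq_ev (D : G.Div) : Finsupp.degree D = ev (fun _ => (1 : ℤ)) D := by
  simp [ev_apply, Finsupp.degree, Finsupp.sum]

/-- the formula for linear functionals on the divisor of a rational function -/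
theorem ev_div {A : Type*} [AddCommGroup A] (F : G.Pt → A) (f : G.RatFun) :
    ev F f.div = ∑ e, f.slope e • (F (vt (G.src e)) - F (vt (G.tgt e))) +
      f.bend.sum fun s c => c • (F (ip s) - F (vt (G.tgt s.1))) := by
  have h1 : ev F f.div = (∑ v, (∑ e : G.E,
      ((if G.src e = v then f.slope e else 0) -
        (if G.tgt e = v then f.slope e + f.bend.sum (fun s c => if s.1 = e then c else 0) else 0))) •
          F (vt v)) + f.bend.sum fun s c => c • F (ip s) := by
    unfold ev RatFun.div
    rw [Finsupp.linearCombination_apply]
    erw [Finsupp.sum_sumElim]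
    congr 1
    rw [Finsupp.sum_fintype]
    · rfl
    · intro i; simp
  rw [h1]
  have h2 : (∑ v, (∑ e : G.E,
      ((if G.src e = v then f.slope e else 0) -
        (if G.tgt e = v then f.slope e + f.bend.sum (fun s c => if s.1 = e then c else 0) else 0))) •
          F (vt v)) = ∑ e, (f.slope e • F (vt (G.src e)) -
            (f.slope e + f.bend.sum (fun s c => if s.1 = e then c else 0)) • F (vt (G.tgt e))) := by
    simp_rw [Finset.sum_smul, sub_smul, ite_smul, zero_smul]
    rw [Finset.sum_comm]
    simp [Finset.sum_sub_distrib]
  rw [h2]
  have h3 : ∑ e, (f.bend.sum (fun s c => if s.1 = e then c else 0)) • F (vt (G.tgt e)) =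
      f.bend.sum fun s c => c • F (vt (G.tgt s.1)) := by
    simp only [Finsupp.sum, Finset.sum_smul]
    rw [Finset.sum_comm]
    refine Finset.sum_congr rfl fun s _ => ?_
    simp [ite_smul]
  simp only [add_smul, Finset.sum_sub_distrib, Finset.sum_add_distrib, smul_sub, h3]
  rw [Finsupp.sum_sub]
  abel

theorem degree_div (f : G.RatFun) : Finsupp.degree f.div = 0 := by
  rw [degree_eq_ev, ev_div]
  simp

/-! ### the group of rational functions -/

instance : Zero G.RatFun := ⟨⟨0, 0, 0, by simp⟩⟩

instance : Add G.RatFun := ⟨fun f g => ⟨f.val + g.val, f.slope + g.slope, f.bend + g.bend, by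
  intro e
  rw [Finsupp.sum_add_index']
  · have h1 := f.closes e
    have h2 := g.closes e
    simp only [Pi.add_apply] at *
    push_cast
    linarith
  · intro s; simp
  · intro s b c
    split_ifs
    · push_cast; ring
    · simp⟩⟩

instance : Neg G.RatFun := ⟨fun f => ⟨-f.val, -f.slope, -f.bend, by
  intro e
  rw [Finsupp.sum_neg_index]
  · have h1 := f.closes e
    simp only [Pi.neg_apply]
    rw [h1]
    have : (f.bend.sum fun a b => if a.fst = e then ((-b : ℤ) : ℝ) * (G.len a.fst - ↑a.snd) else 0) =
      -(f.bend.sum fun a b => if a.fst = e then ((b : ℤ) : ℝ) * (G.len a.fst - ↑a.snd) else 0) := by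
      simp only [Finsupp.sum, ← Finset.sum_neg_distrib]
      refine Finset.sum_congr rfl fun s _ => ?_
      split_ifs
      · push_cast; ring
      · simp
    rw [this]
    push_cast
    ring
  · intro s; simp⟩⟩

end MetricGraph

end Run7.h899
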