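import Pool.Agent.Run7.h899.Basic

/-!
# Principal divisors and a construction of rational functions
-/

set_option autoImplicit false

noncomputable section

namespace Run7.h899

open MetricGraph Finsupp

variable {G : MetricGraph}

namespace MetricGraph

theorem ev_delta (D : G.Div) : ev (fun p => single p (1 : ℤ)) D = D := by
  rw [ev_apply]
  simp only [smul_single, smul_eq_mul, mul_one]
  exact Finsupp.sum_single D

theorem div_eq (f : G.RatFun) : f.div =
    ∑ e, f.slope e • (single (vt (G.src e)) (1 : ℤ) - single (vt (G.tgt e)) 1) +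
      f.bend.sum fun s c => c • (single (ip s) (1 : ℤ) - single (vt (G.tgt s.1)) 1) := by
  conv_lhs => rw [← ev_delta f.div, ev_div]

theorem div_zero' : (0 : G.RatFun).div = 0 := by
  rw [div_eq]
  have h1 : (0 : G.RatFun).slope = 0 := rfl
  have h2 : (0 : G.RatFun).bend = 0 := rfl
  rw [h1, h2]; simp

theorem div_add' (f g : G.RatFun) : (f + g).div = f.div + g.div := by
  rw [div_eq, div_eq, div_eq]
  have h1 : (f + g).slope = f.slope + g.slope := rfl
  have h2 : (f + g).bend = f.bend + g.bend := rfl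
  rw [h1, h2, Finsupp.sum_add_index' (by simp) (by intro a b c; rw [add_smul])]
  simp only [Pi.add_apply, add_smul, Finset.sum_add_distrib]
  abel

theorem div_neg' (f : G.RatFun) : (-f).div = -f.div := by
  rw [div_eq, div_eq]
  have h1 : (-f).slope = -f.slope := rfl
  have h2 : (-f).bend = -f.bend := rfl
  rw [h1, h2, Finsupp.sum_neg_index (by simp)]
  simp only [Pi.neg_apply, neg_smul, Finset.sum_neg_distrib, Finsupp.sum]
  abel

theorem mem_Prin {D : G.Div} : D ∈ G.Prin ↔ ∃ f : G.RatFun, f.div = D := by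
  constructor
  · intro h
    refine AddSubgroup.closure_induction (p := fun D _ => ∃ f : G.RatFun, f.div = D)
      ?_ ?_ ?_ ?_ h
    · rintro _ ⟨f, rfl⟩; exact ⟨f, rfl⟩
    · exact ⟨0, div_zero'⟩
    · rintro _ _ _ _ ⟨f, rfl⟩ ⟨g, rfl⟩; exact ⟨f + g, div_add' f g⟩
    · rintro _ _ ⟨f, rfl⟩; exact ⟨-f, div_neg' f⟩
  · rintro ⟨f, rfl⟩
    exact AddSubgroup.subset_closure ⟨f, rfl⟩

theorem degree_of_mem_Prin {D : G.Div} (h : D ∈ G.Prin) : Finsupp.degree D = 0 := by
  obtain ⟨f, rfl⟩ := mem_Prin.1 h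
  exact degree_div f

/-- `D` has an effective representative iff there is an effective `E` with `E - D` principal. -/
theorem hasEff_iff {D : G.Div} : HasEff D ↔ ∃ E : G.Div, 0 ≤ E ∧ E - D ∈ G.Prin := by
  constructor
  · rintro ⟨f, hf⟩
    exact ⟨D + f.div, hf, mem_Prin.2 ⟨f, by abel⟩⟩
  · rintro ⟨E, hE, h⟩
    obtain ⟨f, hf⟩ := mem_Prin.1 h
    exact ⟨f, by rw [hf]; simpa using hE⟩

theorem HasEff.congr {D D' : G.Div} (h : D' - D ∈ G.Prin) (hD : HasEff D) : HasEff D' := by
  obtain ⟨E, hE, h'⟩ := hasEff_iff.1 hD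
  refine hasEff_iff.2 ⟨E, hE, ?_⟩
  have : E - D' = (E - D) - (D' - D) := by abel
  rw [this]
  exact G.Prin.sub_mem h' h

theorem HasEff.degree_nonneg {D : G.Div} (h : HasEff D) : 0 ≤ Finsupp.degree D := by
  obtain ⟨E, hE, h'⟩ := hasEff_iff.1 h
  have h1 := degree_of_mem_Prin h'
  rw [map_sub, sub_eq_zero] at h1
  rw [← h1]
  simp only [Finsupp.degree, AddMonoidHom.coe_mk, ZeroHom.coe_mk]
  exact Finset.sum_nonneg fun p _ => hE p

theorem hasEff_of_nonneg {D : G.Div} (h : 0 ≤ D) : HasEff D :=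
  hasEff_iff.2 ⟨D, h, by simp⟩

/-- if `D - F` has an effective representative and `0 ≤ F`, so has `D` -/
theorem HasEff.of_sub {D F : G.Div} (hF : 0 ≤ F) (h : HasEff (D - F)) : HasEff D := by
  obtain ⟨E, hE, h'⟩ := hasEff_iff.1 h
  refine hasEff_iff.2 ⟨E + F, add_nonneg hE hF, ?_⟩
  have : E + F - D = E - (D - F) := by abel
  rw [this]; exact h'

/-- The set in the definition of the rank. -/
def rankSet (D : G.Div) : Set ℤ :=
  {k : ℤ | k = -1 ∨ (0 ≤ k ∧ ∀ F : G.Div, 0 ≤ F → Finsupp.degree F = k → HasEff (D - F))}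

theorem exists_pt (G : MetricGraph) : Nonempty G.Pt := by
  obtain ⟨v⟩ := G.nonempty
  exact ⟨vt v⟩

theorem single_nonneg' (p : G.Pt) {n : ℤ} (hn : 0 ≤ n) : 0 ≤ (single p n : G.Div) := by
  exact Finsupp.single_nonneg.2 hn

theorem rankSet_bdd (D : G.Div) : BddAbove (rankSet D) := by
  refine ⟨max (-1) (Finsupp.degree D), ?_⟩
  rintro k (rfl | ⟨h0, h⟩)
  · exact le_max_left _ _
  · refine le_max_of_le_right ?_
    obtain ⟨p⟩ := exists_pt G
    have h1 := (h (single p k) (single_nonneg' p h0) (by simp)).degree_nonneg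
    rw [map_sub] at h1
    simp at h1
    exact h1

theorem rank_ge_iff {D : G.Div} {k : ℤ} (hk : 0 ≤ k) :
    k ≤ rank D ↔ ∀ F : G.Div, 0 ≤ F → Finsupp.degree F = k → HasEff (D - F) := by
  have hne : (rankSet D).Nonempty := ⟨-1, Or.inl rfl⟩
  constructor
  · intro h F hF hdeg
    have hmem : rank D ∈ rankSet D := Int.csSup_mem hne (rankSet_bdd D)
    rcases hmem with h1 | ⟨h0, h1⟩
    · omega
    · obtain ⟨p⟩ := exists_pt G
      have h2 := h1 (F + single p (rank D - k)) (add_nonneg hF (single_nonneg' p (by omega)))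
        (by rw [map_add, hdeg]; simp)
      have h3 : D - F - single p (rank D - k) = D - (F + single p (rank D - k)) := by abel
      rw [← h3] at h2
      exact h2.of_sub (single_nonneg' p (by omega))
  · intro h
    exact le_csSup (rankSet_bdd D) (Or.inr ⟨hk, h⟩)

/-! ### building rational functions -/

/-- slope part of the closed-edge point `x` -/
def sPart (G : MetricGraph) (e : G.E) (x : Set.Icc (0 : ℝ) (G.len e)) : G.E → ℤ :=
  fun e' => if x.1 = 0 ∧ e' = e then 1 else 0

/-- bend part of the closed-edge point `x` -/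
def bPart (G : MetricGraph) (e : G.E) (x : Set.Icc (0 : ℝ) (G.len e)) : G.IPt →₀ ℤ :=
  if h : 0 < x.1 ∧ x.1 < G.len e then single ⟨e, x.1, h.1, h.2⟩ 1 else 0

/-- the functional of slopes and bends -/
def dForm {A : Type*} [AddCommGroup A] (F : G.Pt → A) (s : G.E → ℤ) (b : G.IPt →₀ ℤ) : A :=
  ∑ e, s e • (F (vt (G.src e)) - F (vt (G.tgt e))) +
      Finsupp.linearCombination ℤ (fun s => F (ip s) - F (vt (G.tgt s.1))) b

theorem par_zero (e : G.E) (h) : G.par e ⟨0, h⟩ = vt (G.src e) := by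
  simp [par, vt]

theorem par_len (e : G.E) (h) : G.par e ⟨G.len e, h⟩ = vt (G.tgt e) := by
  simp [par, vt, (G.len_pos e).ne']

theorem par_int (e : G.E) (x : Set.Icc (0 : ℝ) (G.len e)) (h0 : 0 < x.1) (h1 : x.1 < G.len e) :
    G.par e x = ip ⟨e, x.1, h0, h1⟩ := by
  simp [par, ip, h0.ne', h1.ne]

theorem dForm_part {A : Type*} [AddCommGroup A] (F : G.Pt → A) (e : G.E)
    (x : Set.Icc (0 : ℝ) (G.len e)) :
    dForm F (G.sPart e x) (G.bPart e x) = F (G.par e x) - F (vt (G.tgt e)) := by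
  obtain ⟨x, hx0, hx1⟩ := x
  unfold dForm sPart bPart
  rcases hx0.eq_or_lt with h | h
  · subst h
    rw [par_zero]
    simp
  · rcases hx1.eq_or_lt with h' | h'
    · subst h'
      rw [par_len]
      simp [h.ne']
    · rw [par_int e _ h h']
      simp [h, h', h.ne']

/-- the closing functional -/
def cForm (G : MetricGraph) (e : G.E) (s : G.E → ℤ) (b : G.IPt →₀ ℤ) : ℝ :=
  s e * G.len e + Finsupp.linearCombination ℤ (fun s : G.IPt => if s.1 = e then G.len s.1 - s.2 else 0) b

theorem cForm_part (e' e : G.E) (x : Set.Icc (0 : ℝ) (G.len e)) :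
    G.cForm e' (G.sPart e x) (G.bPart e x) = if e' = e then G.len e - x.1 else 0 := by
  obtain ⟨x, hx0, hx1⟩ := x
  unfold cForm sPart bPart
  rcases hx0.eq_or_lt with h | h
  · subst h
    by_cases h2 : e' = e
    · subst h2; simp
    · simp [h2]
  · rcases hx1.eq_or_lt with h' | h'
    · subst h'
      simp [h.ne']
    · by_cases h2 : e' = e
      · subst h2; simp [h, h', h.ne']
      · simp [h, h', h.ne', h2, Ne.symm h2]

/-- Moving chips along closed edges: if the total displacement along every edge is minus the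
variation of a potential, the divisors are linearly equivalent. -/
theorem move {ι : Type*} (T : Finset ι) (e : ι → G.E)
    (x x' : ∀ j, Set.Icc (0 : ℝ) (G.len (e j))) (φ : G.V → ℝ)
    (h : ∀ e', φ (G.tgt e') - φ (G.src e') =
      ∑ j ∈ T, if e' = e j then (x j).1 - (x' j).1 else 0) :
    (∑ j ∈ T, single (G.par (e j) (x' j)) (1 : ℤ)) - ∑ j ∈ T, single (G.par (e j) (x j)) (1 : ℤ)
      ∈ G.Prin := by
  have hc : ∀ e', G.cForm e' (∑ j ∈ T, (G.sPart (e j) (x' j) - G.sPart (e j) (x j)))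
      (∑ j ∈ T, (G.bPart (e j) (x' j) - G.bPart (e j) (x j))) =
      ∑ j ∈ T, if e' = e j then (x j).1 - (x' j).1 else 0 := by
    intro e'
    have h1 : G.cForm e' (∑ j ∈ T, (G.sPart (e j) (x' j) - G.sPart (e j) (x j)))
      (∑ j ∈ T, (G.bPart (e j) (x' j) - G.bPart (e j) (x j))) =
      ∑ j ∈ T, (G.cForm e' (G.sPart (e j) (x' j)) (G.bPart (e j) (x' j)) -
        G.cForm e' (G.sPart (e j) (x j)) (G.bPart (e j) (x j))) := by
      unfold cForm
      rw [map_sum, Finset.sum_apply]
      push_cast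
      rw [Finset.sum_mul, ← Finset.sum_add_distrib]
      refine Finset.sum_congr rfl fun j _ => ?_
      rw [map_sub]
      simp only [Pi.sub_apply]
      push_cast
      ring
    rw [h1]
    refine Finset.sum_congr rfl fun j _ => ?_
    rw [cForm_part, cForm_part]
    split_ifs
    · ring
    · simp
  refine mem_Prin.2 ⟨⟨φ, ∑ j ∈ T, (G.sPart (e j) (x' j) - G.sPart (e j) (x j)),
    ∑ j ∈ T, (G.bPart (e j) (x' j) - G.bPart (e j) (x j)), ?_⟩, ?_⟩
  · intro e'
    have h1 := hc e'
    rw [← h e'] at h1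
    unfold cForm at h1
    rw [Finsupp.linearCombination_apply] at h1
    have h2 : ∀ b : G.IPt →₀ ℤ, (b.sum fun i a => a • if i.fst = e' then G.len i.fst - ↑i.snd else (0 : ℝ))
        = b.sum fun s c => if s.1 = e' then (c : ℝ) * (G.len s.1 - s.2) else 0 := by
      intro b
      refine Finsupp.sum_congr fun s _ => ?_
      split_ifs
      · rw [zsmul_eq_mul]
      · simp
    rw [h2] at h1
    linarith
  · rw [← ev_delta (RatFun.div _), ev_div]
    have h1 : ∀ (s : G.E → ℤ) (b : G.IPt →₀ ℤ), (∑ e, s e • ((single (vt (G.src e)) (1 : ℤ) : G.Div)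
        - single (vt (G.tgt e)) (1 : ℤ)) +
      b.sum fun s c => c • ((single (ip s) (1 : ℤ) : G.Div) - single (vt (G.tgt s.1)) (1 : ℤ))) =
      dForm (fun p => (single p (1 : ℤ) : G.Div)) s b := by
      intro s b
      rfl
    rw [h1]
    have h2 : dForm (fun p => (single p (1 : ℤ) : G.Div))
        (∑ j ∈ T, (G.sPart (e j) (x' j) - G.sPart (e j) (x j)))
        (∑ j ∈ T, (G.bPart (e j) (x' j) - G.bPart (e j) (x j))) =
      ∑ j ∈ T, (dForm (fun p => (single p (1 : ℤ) : G.Div)) (G.sPart (e j) (x' j)) (G.bPart (e j) (x' j)) -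
        dForm (fun p => (single p (1 : ℤ) : G.Div)) (G.sPart (e j) (x j)) (G.bPart (e j) (x j))) := by
      unfold dForm
      rw [map_sum]
      simp only [Finset.sum_apply, Finset.sum_smul, Pi.sub_apply]
      rw [Finset.sum_comm, ← Finset.sum_add_distrib]
      refine Finset.sum_congr rfl fun j _ => ?_
      rw [map_sub]
      simp only [sub_smul, Finset.sum_sub_distrib]
      abel
    rw [h2, ← Finset.sum_sub_distrib]
    refine Finset.sum_congr rfl fun j _ => ?_
    rw [dForm_part, dForm_part]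
    abel

end MetricGraph

end Run7.h899
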