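import Pool.Agent.Run7.h899.Build

/-!
# Circle-valued characters of the Picard group of a metric graph
-/

set_option autoImplicit false

noncomputable section

namespace Run7.h899

open MetricGraph Finsupp

/-- A multivalued harmonic function: values in `ℝ/ℤ` at the vertices, a real slope on every edge;
the slopes form a flow. -/
structure Chr (G : MetricGraph) where
  /-- values at the vertices -/
  φ : G.V → UnitAddCircle
  /-- slopes on the edges -/
  κ : G.E → ℝ
  closes : ∀ e, φ (G.tgt e) = φ (G.src e) + ((κ e * G.len e : ℝ) : UnitAddCircle)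
  flow : ∀ v, (∑ e, if G.src e = v then κ e else 0) = ∑ e, if G.tgt e = v then κ e else 0

variable {G : MetricGraph}

namespace Chr

/-- the function on the metric graph -/
def fn (c : Chr G) : G.Pt → UnitAddCircle :=
  Sum.elim c.φ (fun s => c.φ (G.src s.1) + ((c.κ s.1 * s.2.1 : ℝ) : UnitAddCircle))

theorem fn_vt (c : Chr G) (v : G.V) : c.fn (vt v) = c.φ v := rfl

theorem fn_ip (c : Chr G) (s : G.IPt) :
    c.fn (ip s) = c.φ (G.src s.1) + ((c.κ s.1 * s.2.1 : ℝ) : UnitAddCircle) := rfl

theorem fn_par (c : Chr G) (e : G.E) (t : Set.Icc (0 : ℝ) (G.len e)) :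
    c.fn (G.par e t) = c.φ (G.src e) + ((c.κ e * t.1 : ℝ) : UnitAddCircle) := by
  obtain ⟨t, h0, h1⟩ := t
  rcases h0.eq_or_lt with h | h
  · subst h; rw [par_zero, fn_vt]; simp
  · rcases h1.eq_or_lt with h' | h'
    · subst h'; rw [par_len, fn_vt, c.closes]
    · rw [par_int e _ h h', fn_ip]

theorem continuous_fn (c : Chr G) : Continuous c.fn := by
  refine continuous_iSup_dom.2 fun e => continuous_coinduced_dom.2 ?_
  have : c.fn ∘ G.par e = fun t => c.φ (G.src e) + ((c.κ e * t.1 : ℝ) : UnitAddCircle) := by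
    funext t; exact c.fn_par e t
  rw [this]
  exact continuous_const.add ((AddCircle.continuous_mk' (1:ℝ)).comp
    (continuous_const.mul continuous_subtype_val))

theorem ev_div_eq_zero (c : Chr G) (f : G.RatFun) : ev c.fn f.div = 0 := by
  rw [ev_div]
  have h1 : ∀ e, f.slope e • (c.fn (vt (G.src e)) - c.fn (vt (G.tgt e))) =
      ((-(c.κ e * (f.slope e * G.len e)) : ℝ) : UnitAddCircle) := by
    intro e
    rw [fn_vt, fn_vt, c.closes]
    have : c.φ (G.src e) - (c.φ (G.src e) + ((c.κ e * G.len e : ℝ) : UnitAddCircle)) =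
      ((-(c.κ e * G.len e) : ℝ) : UnitAddCircle) := by
      rw [AddCircle.coe_neg]; abel
    rw [this, ← AddCircle.coe_zsmul]
    congr 1
    rw [zsmul_eq_mul]; ring
  have h2 : ∀ (s : G.IPt) (a : ℤ), a • (c.fn (ip s) - c.fn (vt (G.tgt s.1))) =
      ((-(c.κ s.1 * (a * (G.len s.1 - s.2))) : ℝ) : UnitAddCircle) := by
    intro s a
    rw [fn_vt, fn_ip, c.closes]
    have : c.φ (G.src s.1) + ((c.κ s.1 * s.2.1 : ℝ) : UnitAddCircle) -
        (c.φ (G.src s.1) + ((c.κ s.1 * G.len s.1 : ℝ) : UnitAddCircle)) =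
      ((-(c.κ s.1 * (G.len s.1 - s.2)) : ℝ) : UnitAddCircle) := by
      rw [mul_sub, neg_sub, AddCircle.coe_sub]; abel
    rw [this, ← AddCircle.coe_zsmul]
    congr 1
    rw [zsmul_eq_mul]; ring
  simp only [h1, h2]
  have h3 : (f.bend.sum fun s a => ((-(c.κ s.1 * (a * (G.len s.1 - s.2))) : ℝ) : UnitAddCircle)) =
      ((f.bend.sum fun s a => (-(c.κ s.1 * (a * (G.len s.1 - s.2))) : ℝ) : ℝ) : UnitAddCircle) := by
    simp only [Finsupp.sum]
    rw [← QuotientAddGroup.mk_sum]
  have h4 : (∑ e, ((-(c.κ e * (f.slope e * G.len e)) : ℝ) : UnitAddCircle)) =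
      ((∑ e, (-(c.κ e * (f.slope e * G.len e)) : ℝ) : ℝ) : UnitAddCircle) := by
    rw [← QuotientAddGroup.mk_sum]
  rw [h3, h4, ← AddCircle.coe_add]
  have h5 : (f.bend.sum fun s a => (-(c.κ s.1 * (a * (G.len s.1 - s.2))) : ℝ)) =
      ∑ e, -(c.κ e * (f.bend.sum fun s a => if s.1 = e then (a : ℝ) * (G.len s.1 - s.2) else 0)) := by
    simp only [Finsupp.sum, Finset.mul_sum, ← Finset.sum_neg_distrib]
    rw [Finset.sum_comm]
    refine Finset.sum_congr rfl fun s _ => ?_
    rw [Finset.sum_eq_single s.1]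
    · simp
    · intro e _ he
      simp [Ne.symm he]
    · simp
  rw [h5, ← Finset.sum_add_distrib]
  have h6 : ∀ e, (-(c.κ e * (f.slope e * G.len e)) +
      -(c.κ e * (f.bend.sum fun s a => if s.1 = e then (a : ℝ) * (G.len s.1 - s.2) else 0))) =
      c.κ e * f.val (G.src e) - c.κ e * f.val (G.tgt e) := by
    intro e
    rw [f.closes e]; ring
  simp only [h6]
  have h7 : ∑ e, (c.κ e * f.val (G.src e) - c.κ e * f.val (G.tgt e)) = 0 := by
    rw [Finset.sum_sub_distrib, sub_eq_zero]
    have key : ∀ g : G.E → G.V, ∑ e, c.κ e * f.val (g e) =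
        ∑ v, f.val v * ∑ e, if g e = v then c.κ e else 0 := by
      intro g
      simp only [Finset.mul_sum]
      rw [Finset.sum_comm]
      refine Finset.sum_congr rfl fun e _ => ?_
      rw [Finset.sum_eq_single (g e)]
      · simp [mul_comm]
      · intro v _ hv; simp [Ne.symm hv]
      · simp
    rw [key, key]
    refine Finset.sum_congr rfl fun v _ => ?_
    rw [c.flow v]
  rw [h7]
  simp

theorem ev_prin (c : Chr G) {D : G.Div} (h : D ∈ G.Prin) : ev c.fn D = 0 := by
  obtain ⟨f, rfl⟩ := mem_Prin.1 h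
  exact c.ev_div_eq_zero f

/-- the character of `Pic⁰` -/
def onPic (c : Chr G) : G.Pic0 → UnitAddCircle :=
  Quotient.lift (s := QuotientAddGroup.leftRel (G.Prin.addSubgroupOf G.Div0))
    (fun D : G.Div0 => ev c.fn (D : G.Div)) (by
      intro D D' h
      have h' : -D + D' ∈ G.Prin.addSubgroupOf G.Div0 := QuotientAddGroup.leftRel_apply.1 h
      rw [AddSubgroup.mem_addSubgroupOf] at h'
      have h1 := c.ev_prin h'
      push_cast at h1
      rw [map_add, map_neg] at h1
      exact (neg_add_eq_zero.1 h1))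

theorem onPic_cls (c : Chr G) (D : G.Div0) : c.onPic (G.cls D) = ev c.fn (D : G.Div) := rfl

theorem continuous_onPic (c : Chr G) : Continuous c.onPic := by
  refine continuous_iSup_dom.2 fun n => continuous_coinduced_dom.2 ?_
  have : c.onPic ∘ G.diffCls n = fun x => ∑ i, (c.fn (x.1 i) - c.fn (x.2 i)) := by
    funext x
    simp only [Function.comp, diffCls, onPic_cls]
    rw [map_sum]
    refine Finset.sum_congr rfl fun i _ => ?_
    rw [map_sub, ev_single, ev_single, one_smul, one_smul]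
  rw [this]
  refine continuous_finsetSum _ fun i _ => ?_
  exact (c.continuous_fn.comp ((continuous_apply i).comp continuous_fst)).sub
    (c.continuous_fn.comp ((continuous_apply i).comp continuous_snd))

end Chr

theorem cls_eq_iff {D D' : G.Div0} : G.cls D = G.cls D' ↔ (D' : G.Div) - D ∈ G.Prin := by
  have h : (QuotientAddGroup.mk D : G.Div0 ⧸ (G.Prin.addSubgroupOf G.Div0)) =
      QuotientAddGroup.mk D' ↔ -D + D' ∈ G.Prin.addSubgroupOf G.Div0 := QuotientAddGroup.eq
  refine h.trans ?_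
  rw [AddSubgroup.mem_addSubgroupOf]
  push_cast
  rw [neg_add_eq_sub]

end Run7.h899
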