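import Pool.Agent.Run7.h899.Dat

/-!
# Configurations with one chip on every bridge
-/

set_option autoImplicit false

noncomputable section

namespace Run7.h899

open MetricGraph Finsupp

variable {k : ℕ} [NeZero k]

theorem sum_range_zmod {A : Type*} [AddCommMonoid A] (a : ZMod k → A) :
    ∑ j ∈ Finset.range k, a (j : ZMod k) = ∑ i, a i := by
  refine Finset.sum_nbij' (fun n => (n : ZMod k)) ZMod.val ?_ ?_ ?_ ?_ ?_
  · intro n _; exact Finset.mem_univ _
  · intro i _; exact Finset.mem_range.2 (ZMod.val_lt i)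
  · intro n hn; exact ZMod.val_natCast_of_lt (Finset.mem_range.1 hn)
  · intro i _; exact ZMod.natCast_zmod_val i
  · intro n _; rfl

/-- a function on `ℤ/k` with prescribed differences -/
theorem exists_potential (a : ZMod k → ℝ) (h : ∑ i, a i = 0) :
    ∃ Φ : ZMod k → ℝ, ∀ i, Φ i - Φ (i - 1) = a i := by
  refine ⟨fun i => ∑ j ∈ Finset.range (i.val + 1), a (j : ZMod k), fun i => ?_⟩
  have hi := ZMod.natCast_zmod_val i
  have hlt := ZMod.val_lt i
  obtain h0 | ⟨m, hm⟩ : i.val = 0 ∨ ∃ m, i.val = m + 1 := by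
    rcases i.val with _ | m
    · left; rfl
    · right; exact ⟨m, rfl⟩
  · have hi0 : i = 0 := by rw [← hi, h0]; simp
    subst hi0
    have h1 : ((0 : ZMod k) - 1).val + 1 = k := by
      obtain ⟨n, rfl⟩ : ∃ n, k = n + 1 := ⟨k - 1, by have := NeZero.pos k; omega⟩
      have h2 : ((n : ℕ) : ZMod (n + 1)) = 0 - 1 := by
        rw [eq_sub_iff_add_eq]
        exact_mod_cast ZMod.natCast_self (n + 1)
      rw [← h2, ZMod.val_natCast_of_lt (by omega)]
    simp only [h1, sum_range_zmod, h]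
    simp
  · have h1 : i - 1 = (m : ZMod k) := by
      rw [sub_eq_iff_eq_add, ← hi, hm]; push_cast; ring
    have h2 : (i - 1).val = m := by
      rw [h1, ZMod.val_natCast_of_lt (by omega)]
    simp only [h2, hm]
    rw [Finset.sum_range_succ]
    have h3 : ((m + 1 : ℕ) : ZMod k) = i := by rw [← hm, hi]
    rw [h3]; ring

/-- the point of the closed bridge `i` at distance `x` from `r (i-1)` -/
def br (i : ZMod k) (x : Set.Icc (0 : ℝ) 1) : (ringG k).Pt := (ringG k).par (i, 0) x

/-- the configuration with one chip on every bridge -/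
def conf (x : ZMod k → Set.Icc (0 : ℝ) 1) : (ringG k).Div := ∑ i, single (br i (x i)) (1 : ℤ)

theorem conf_equiv (x x' : ZMod k → Set.Icc (0 : ℝ) 1)
    (h : ∑ i, (x i : ℝ) = ∑ i, (x' i : ℝ)) : conf x' - conf x ∈ (ringG k).Prin := by
  obtain ⟨Φ, hΦ⟩ := exists_potential (fun i => (x i : ℝ) - x' i)
    (by rw [Finset.sum_sub_distrib, h, sub_self])
  refine move (G := ringG k) Finset.univ (fun i : ZMod k => ((i, 0) : ZMod k × Fin 3)) x x'
    (vfun k Φ Φ) ?_
  rintro ⟨i, l⟩
  fin_cases l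
  · have h1 := hΦ i
    change Φ i - Φ (i - 1) = ∑ j : ZMod k, if ((i, 0) : ZMod k × Fin 3) = (j, 0) then
      (x j : ℝ) - (x' j : ℝ) else 0
    rw [h1]
    simp [Prod.ext_iff]
  · change Φ i - Φ i = ∑ j : ZMod k, if ((i, 1) : ZMod k × Fin 3) = (j, 0) then
      (x j : ℝ) - (x' j : ℝ) else 0
    simp [Prod.ext_iff]
  · change Φ i - Φ i = ∑ j : ZMod k, if ((i, 2) : ZMod k × Fin 3) = (j, 0) then
      (x j : ℝ) - (x' j : ℝ) else 0
    simp [Prod.ext_iff]

theorem pair_up (i : ZMod k) (t h0 h1 h0' h1') :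
    single (up k i t h0 h1) (1 : ℤ) + single (up k i (2 - t) h0' h1') 1 -
      (single (lv k i) 1 + single (rv k i) 1) ∈ (ringG k).Prin := by
  have h := move (G := ringG k) Finset.univ (fun _ : Bool => ((i, 1) : ZMod k × Fin 3))
    (fun b => if b then ⟨0, le_refl _, by change (0:ℝ) ≤ 2; norm_num⟩
      else ⟨2, by norm_num, le_refl _⟩)
    (fun b => if b then ⟨t, h0.le, h1.le⟩ else ⟨2 - t, h0'.le, h1'.le⟩) (fun _ => 0)
    (by
      intro e'
      rw [Fintype.sum_bool]
      simp only [if_true, Bool.false_eq_true, if_false]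
      split_ifs with hh
      · ring
      · ring)
  rw [Fintype.sum_bool, Fintype.sum_bool] at h
  simp only [if_true, Bool.false_eq_true, if_false] at h
  have e1 : (ringG k).par (i, 1) ⟨t, h0.le, h1.le⟩ = up k i t h0 h1 := par_int _ _ h0 h1
  have e2 : (ringG k).par (i, 1) ⟨2 - t, h0'.le, h1'.le⟩ = up k i (2 - t) h0' h1' :=
    par_int _ _ h0' h1'
  have e3 : (ringG k).par (i, 1) ⟨0, le_refl _, by change (0:ℝ) ≤ 2; norm_num⟩ = lv k i :=
    par_zero _ _
  have e4 : (ringG k).par (i, 1) ⟨2, by norm_num, le_refl _⟩ = rv k i :=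
    par_len (G := ringG k) (i, 1) _
  rw [← e1, ← e2, ← e3, ← e4]
  exact h

theorem pair_dn (i : ZMod k) (t h0 h1 h0' h1') :
    single (dn k i t h0 h1) (1 : ℤ) + single (dn k i (2 - t) h0' h1') 1 -
      (single (lv k i) 1 + single (rv k i) 1) ∈ (ringG k).Prin := by
  have h := move (G := ringG k) Finset.univ (fun _ : Bool => ((i, 2) : ZMod k × Fin 3))
    (fun b => if b then ⟨0, le_refl _, by change (0:ℝ) ≤ 2; norm_num⟩
      else ⟨2, by norm_num, le_refl _⟩)
    (fun b => if b then ⟨t, h0.le, h1.le⟩ else ⟨2 - t, h0'.le, h1'.le⟩) (fun _ => 0)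
    (by
      intro e'
      rw [Fintype.sum_bool]
      simp only [if_true, Bool.false_eq_true, if_false]
      split_ifs with hh
      · ring
      · ring)
  rw [Fintype.sum_bool, Fintype.sum_bool] at h
  simp only [if_true, Bool.false_eq_true, if_false] at h
  have e1 : (ringG k).par (i, 2) ⟨t, h0.le, h1.le⟩ = dn k i t h0 h1 := par_int _ _ h0 h1
  have e2 : (ringG k).par (i, 2) ⟨2 - t, h0'.le, h1'.le⟩ = dn k i (2 - t) h0' h1' :=
    par_int _ _ h0' h1'
  have e3 : (ringG k).par (i, 2) ⟨0, le_refl _, by change (0:ℝ) ≤ 2; norm_num⟩ = lv k i :=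
    par_zero _ _
  have e4 : (ringG k).par (i, 2) ⟨2, by norm_num, le_refl _⟩ = rv k i :=
    par_len (G := ringG k) (i, 2) _
  rw [← e1, ← e2, ← e3, ← e4]
  exact h

end Run7.h899
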