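import Mathlib

/-!
# The counting lemma
-/

set_option autoImplicit false

noncomputable section

namespace Run7.h899

variable {k : ℕ} [NeZero k]

theorem sum_shift {A : Type*} [AddCommMonoid A] (f : ZMod k → A) : ∑ i, f (i - 1) = ∑ i, f i :=
  Equiv.sum_comp (Equiv.subRight (1 : ZMod k)) f

theorem sum_shift' {A : Type*} [AddCommMonoid A] (f : ZMod k → A) : ∑ i, f (i + 1) = ∑ i, f i :=
  Equiv.sum_comp (Equiv.addRight (1 : ZMod k)) f

/-- the numerical data of an effective divisor of degree `k` on the ring -/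
structure Data (k : ℕ) [NeZero k] (ε : ℝ) where
  c : ZMod k → ℤ
  m : ZMod k → ℤ
  n : ZMod k → ℤ
  z : ZMod k → ℝ
  τ : ZMod k → ℝ
  σ : ZMod k → ℝ
  c_nonneg : ∀ i, 0 ≤ c i
  m_nonneg : ∀ i, 0 ≤ m i
  z_le : ∀ i, |z i| ≤ τ i
  τ_le : ∀ i, τ i ≤ 2 * m i
  σ_nonneg : ∀ i, 0 ≤ σ i
  σ_le : ∀ i, σ i ≤ c i
  total : ∑ i, (c i + m i) = k
  near_n : ∀ i, |z i / 2 - n i| < ε
  near_N : ∀ i, ∃ N : ℤ, |((c i : ℝ) + m i) / 2 + (z i - z (i - 1)) / 4 - 1 / 2 - N| < ε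

namespace Data

variable {ε : ℝ} (d : Data k ε)

include d

theorem abs_n_le (hε : ε ≤ 1 / 8) (i : ZMod k) : |d.n i| ≤ d.m i := by
  have h1 := d.near_n i
  have h2 := d.z_le i
  have h3 := d.τ_le i
  have h4 : |(d.n i : ℝ)| ≤ |d.z i / 2| + |d.z i / 2 - d.n i| := by
    have := abs_sub_abs_le_abs_sub (d.n i : ℝ) (d.z i / 2)
    rw [abs_sub_comm] at this
    linarith
  rw [abs_div, abs_two] at h4
  have h5 : |(d.n i : ℝ)| < d.m i + 1 := by linarith
  have h6 : ((|d.n i| : ℤ) : ℝ) < ((d.m i + 1 : ℤ) : ℝ) := by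
    push_cast; exact h5
  have h7 : |d.n i| < d.m i + 1 := by exact_mod_cast h6
  omega

theorem parity (hε : ε ≤ 1 / 8) (i : ZMod k) :
    ∃ N : ℤ, d.c i + d.m i + d.n i - d.n (i - 1) = 1 + 2 * N := by
  obtain ⟨N, hN⟩ := d.near_N i
  refine ⟨N, ?_⟩
  have h1 := abs_lt.1 (d.near_n i)
  have h2 := abs_lt.1 (d.near_n (i - 1))
  have h3 := abs_lt.1 hN
  have h4 : ((d.c i + d.m i + d.n i - d.n (i - 1) - (1 + 2 * N) : ℤ) : ℝ) < 1 := by
    push_cast; linarith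
  have h5 : (-1 : ℝ) < ((d.c i + d.m i + d.n i - d.n (i - 1) - (1 + 2 * N) : ℤ) : ℝ) := by
    push_cast; linarith
  have h6 : d.c i + d.m i + d.n i - d.n (i - 1) - (1 + 2 * N) < 1 := by exact_mod_cast h4
  have h7 : -1 < d.c i + d.m i + d.n i - d.n (i - 1) - (1 + 2 * N) := by exact_mod_cast h5
  omega

theorem one (hε : ε ≤ 1 / 8) (i : ZMod k) :
    d.c i + (d.m i - |d.n i|) + |d.n (i - 1)| = 1 := by
  have h1 : ∀ i, 0 ≤ d.c i + (d.m i - |d.n i|) + |d.n (i - 1)| - 1 := by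
    intro i
    obtain ⟨N, hN⟩ := d.parity hε i
    have h2 := d.abs_n_le hε i
    have h3 := d.c_nonneg i
    have h4 := abs_nonneg (d.n (i - 1))
    rcases abs_cases (d.n i) with ⟨h5, _⟩ | ⟨h5, _⟩ <;>
    rcases abs_cases (d.n (i - 1)) with ⟨h6, _⟩ | ⟨h6, _⟩ <;> omega
  have h2 : ∑ i, (d.c i + (d.m i - |d.n i|) + |d.n (i - 1)| - 1) = 0 := by
    have h3 := d.total
    have h4 := sum_shift (fun i => |d.n i|)
    simp only [Finset.sum_add_distrib, Finset.sum_sub_distrib] at *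
    simp only [Finset.sum_const, Finset.card_univ, ZMod.card, nsmul_eq_mul, mul_one]
    linarith
  have h3 := (Finset.sum_eq_zero_iff_of_nonneg (fun i _ => h1 i)).1 h2 i (Finset.mem_univ i)
  linarith

/-- the position of the configuration -/
def X : ℝ := ∑ i, (d.σ i + ((d.m i : ℝ) - |(d.n i : ℝ)|) + (d.τ i / 2 - |(d.n i : ℝ)|))

omit d in
theorem tc_one : (ZMod.toAddCircle (1 : ZMod k) : UnitAddCircle) = ((1 / k : ℝ) : UnitAddCircle) := by
  have h5 := ZMod.toAddCircle_natCast (N := k) 1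
  rw [Nat.cast_one, Nat.cast_one] at h5
  exact h5

theorem pos_eq (hε : ε ≤ 1 / 8) :
    ∑ i : ZMod k, (d.c i + d.m i) • (ZMod.toAddCircle i : UnitAddCircle) +
      ((∑ i, ((d.σ i + d.m i) / (2 * k) + d.τ i / (4 * k)) : ℝ) : UnitAddCircle) =
    ∑ i : ZMod k, (ZMod.toAddCircle i : UnitAddCircle) + ((d.X / (2 * k) : ℝ) : UnitAddCircle) := by
  have h1 : ∀ i, d.c i + d.m i = 1 + |d.n i| - |d.n (i - 1)| := fun i => by
    have := d.one hε i; linarith
  have h2 : ∑ i : ZMod k, (d.c i + d.m i) • (ZMod.toAddCircle i : UnitAddCircle) =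
      ∑ i : ZMod k, (ZMod.toAddCircle i : UnitAddCircle) -
        ((∑ i, |(d.n i : ℝ)| / k : ℝ) : UnitAddCircle) := by
    simp only [h1, sub_smul, add_smul, one_smul, Finset.sum_sub_distrib, Finset.sum_add_distrib]
    have h3 : ∑ i : ZMod k, |d.n (i - 1)| • (ZMod.toAddCircle i : UnitAddCircle) =
        ∑ i : ZMod k, |d.n i| • (ZMod.toAddCircle i : UnitAddCircle) +
          ((∑ i, |(d.n i : ℝ)| / k : ℝ) : UnitAddCircle) := by
      have h4 := sum_shift (fun i : ZMod k => |d.n i| • (ZMod.toAddCircle (i + 1) : UnitAddCircle))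
      simp only [sub_add_cancel] at h4
      rw [h4]
      simp only [map_add, smul_add, Finset.sum_add_distrib]
      congr 1
      rw [QuotientAddGroup.mk_sum]
      refine Finset.sum_congr rfl fun i _ => ?_
      rw [tc_one, ← AddCircle.coe_zsmul, zsmul_eq_mul]
      congr 1
      push_cast
      ring
    rw [h3]; abel
  have h3 : (∑ i, ((d.σ i + d.m i) / (2 * k) + d.τ i / (4 * k)) : ℝ) =
      d.X / (2 * k) + (∑ i, |(d.n i : ℝ)| / k : ℝ) := by
    unfold X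
    rw [Finset.sum_div, ← Finset.sum_add_distrib]
    refine Finset.sum_congr rfl fun i _ => ?_
    have : (k : ℝ) ≠ 0 := NeZero.ne _
    field_simp
    ring
  rw [h2, h3, AddCircle.coe_add]
  abel

theorem term_ge (i : ZMod k) (hε : ε ≤ 1 / 8) :
    -ε ≤ (d.σ i + ((d.m i : ℝ) - |(d.n i : ℝ)|) + (d.τ i / 2 - |(d.n i : ℝ)|)) -
      (d.σ i + ((d.m i : ℝ) - |(d.n i : ℝ)|)) := by
  have h1 := d.near_n i
  have h2 := d.z_le i
  have h4 : |(d.n i : ℝ)| ≤ |d.z i / 2| + |d.z i / 2 - d.n i| := by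
    have := abs_sub_abs_le_abs_sub (d.n i : ℝ) (d.z i / 2)
    rw [abs_sub_comm] at this
    linarith
  rw [abs_div, abs_two] at h4
  linarith

/-- the lower bound for `X` -/
theorem X_ge (hε : ε ≤ 1 / 8) (j : ZMod k) (hk : 1 < k) (hm : (1 : ℝ) ≤ (d.m j : ℝ) - |(d.n j : ℝ)|)
    (hσ : 1 ≤ d.σ (j + 1)) : 2 - k * ε ≤ d.X := by
  haveI : Fact (1 < k) := ⟨hk⟩
  have hmn : ∀ i, (0 : ℝ) ≤ (d.m i : ℝ) - |(d.n i : ℝ)| := fun i => by
    have h1 := d.abs_n_le hε i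
    have h2 : ((|d.n i| : ℤ) : ℝ) ≤ d.m i := by exact_mod_cast h1
    push_cast at h2
    linarith
  have h1 : ∑ i, ((d.σ i + ((d.m i : ℝ) - |(d.n i : ℝ)|)) - ε) ≤ d.X := by
    unfold X
    refine Finset.sum_le_sum fun i _ => ?_
    have := d.term_ge i hε
    linarith
  have h2 : ∑ i, ((d.σ i + ((d.m i : ℝ) - |(d.n i : ℝ)|)) - ε) =
      ∑ i, d.σ i + ∑ i, ((d.m i : ℝ) - |(d.n i : ℝ)|) - k * ε := by
    rw [Finset.sum_sub_distrib, Finset.sum_add_distrib]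
    simp [ZMod.card]
  have h3 : 1 ≤ ∑ i, d.σ i := hσ.trans
    (Finset.single_le_sum (fun i _ => d.σ_nonneg i) (Finset.mem_univ (j + 1)))
  have h4 : 1 ≤ ∑ i, ((d.m i : ℝ) - |(d.n i : ℝ)|) := hm.trans
    (Finset.single_le_sum (fun i _ => hmn i) (Finset.mem_univ j))
  linarith

/-- the upper bound for `X` -/
theorem X_le (hε : ε ≤ 1 / 8) : d.X ≤ 2 * k - ∑ i, (d.c i : ℝ) := by
  have h1 : ∀ i, (d.σ i + ((d.m i : ℝ) - |(d.n i : ℝ)|) + (d.τ i / 2 - |(d.n i : ℝ)|)) ≤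
      2 * ((d.c i : ℝ) + ((d.m i : ℝ) - |(d.n i : ℝ)|)) - d.c i := by
    intro i
    have h2 := d.σ_le i
    have h3 := d.τ_le i
    linarith
  have h2 : ∀ i, (d.c i : ℝ) + ((d.m i : ℝ) - |(d.n i : ℝ)|) ≤ 1 := by
    intro i
    have h3 := d.one hε i
    have h4 : ((d.c i + (d.m i - |d.n i|) + |d.n (i - 1)| : ℤ) : ℝ) = 1 := by rw [h3]; norm_num
    push_cast at h4
    have h5 := abs_nonneg (d.n (i - 1) : ℝ)
    linarith
  unfold X
  calc ∑ i, (d.σ i + ((d.m i : ℝ) - |(d.n i : ℝ)|) + (d.τ i / 2 - |(d.n i : ℝ)|)) ≤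
      ∑ i : ZMod k, ((2 : ℝ) - d.c i) := Finset.sum_le_sum fun i _ => by
        have := h1 i; have := h2 i; linarith
    _ = 2 * k - ∑ i, (d.c i : ℝ) := by
        rw [Finset.sum_sub_distrib]; simp [ZMod.card, mul_comm]

/-- no configuration near `s = 3/2` has a chip at `l (j+1)` and a chip inside the pair `j` -/
theorem no_inside (hε : ε = 1 / (8 * k)) (j : ZMod k) (hk : 1 < k)
    (hm : (1 : ℝ) ≤ (d.m j : ℝ) - |(d.n j : ℝ)|) (hc : 1 ≤ d.c (j + 1))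
    (hσ : 1 ≤ d.σ (j + 1)) (N : ℤ) (hN : |(d.X - 3 / 2) / (2 * k) - N| < 1 / (8 * k)) : False := by
  have hk0 : (0 : ℝ) < k := by exact_mod_cast (by omega : 0 < k)
  have hk1 : (1 : ℝ) ≤ k := by exact_mod_cast (by omega : 1 ≤ k)
  have hε' : ε ≤ 1 / 8 := by
    rw [hε]
    apply one_div_le_one_div_of_le <;> linarith
  have h1 := d.X_ge hε' j hk hm hσ
  have h2 := d.X_le hε'
  have h3 : (1 : ℝ) ≤ ∑ i, (d.c i : ℝ) := by
    have : (1 : ℝ) ≤ (d.c (j + 1) : ℝ) := by exact_mod_cast hc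
    exact this.trans (Finset.single_le_sum (f := fun i => (d.c i : ℝ))
      (fun i _ => by exact_mod_cast d.c_nonneg i) (Finset.mem_univ (j + 1)))
  have h4 : (k : ℝ) * ε = 1 / 8 := by rw [hε]; field_simp
  have h5 : |(d.X - 3 / 2) - N * (2 * k)| < 1 / 4 := by
    have : (d.X - 3 / 2) - N * (2 * k) = ((d.X - 3 / 2) / (2 * k) - N) * (2 * k) := by
      field_simp
    rw [this, abs_mul, abs_of_pos (by linarith : (0 : ℝ) < 2 * k)]
    calc |(d.X - 3 / 2) / (2 * k) - N| * (2 * k) < 1 / (8 * k) * (2 * k) := by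
          apply mul_lt_mul_of_pos_right hN (by linarith)
      _ = 1 / 4 := by field_simp; norm_num
  have h6 := abs_lt.1 h5
  rcases lt_trichotomy N 0 with h | h | h
  · have : (N : ℝ) ≤ -1 := by exact_mod_cast (by omega : N ≤ -1)
    nlinarith
  · subst h
    simp at h6
    linarith
  · have : (1 : ℝ) ≤ N := by exact_mod_cast (by omega : 1 ≤ N)
    nlinarith

end Data

end Run7.h899
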