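import Pool.Agent.Run7.h899.Fun

/-!
# Numerical data of a divisor on the ring
-/

set_option autoImplicit false

noncomputable section

namespace Run7.h899

open MetricGraph Finsupp

section general
variable {G : MetricGraph} {A B : Type*} [AddCommGroup A] [AddCommGroup B]

theorem ev_map (g : A →+ B) (F : G.Pt → A) (D : G.Div) :
    ev (fun p => g (F p)) D = g (ev F D) := by
  rw [ev_apply, ev_apply, map_finsuppSum]
  simp

theorem ev_addF (F F' : G.Pt → A) (D : G.Div) :
    ev (fun p => F p + F' p) D = ev F D + ev F' D := by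
  simp only [ev_apply, smul_add, Finsupp.sum_add]

theorem ev_subF (F F' : G.Pt → A) (D : G.Div) :
    ev (fun p => F p - F' p) D = ev F D - ev F' D := by
  simp only [ev_apply, smul_sub, Finsupp.sum_sub]

theorem ev_sumF {ι : Type*} (s : Finset ι) (F : ι → G.Pt → A) (D : G.Div) :
    ev (fun p => ∑ i ∈ s, F i p) D = ∑ i ∈ s, ev (F i) D := by
  simp only [ev_apply, Finsupp.sum, Finset.smul_sum]
  rw [Finset.sum_comm]

theorem ev_zero (D : G.Div) : ev (fun _ => (0 : A)) D = 0 := by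
  simp [ev_apply]

variable [PartialOrder A] [IsOrderedAddMonoid A]

theorem ev_nonneg (F : G.Pt → A) (hF : ∀ p, 0 ≤ F p) (D : G.Div) (hD : 0 ≤ D) : 0 ≤ ev F D := by
  rw [ev_apply]
  exact Finset.sum_nonneg fun p _ => zsmul_nonneg (hF p) (hD p)

theorem ev_mono (F F' : G.Pt → A) (hF : ∀ p, F p ≤ F' p) (D : G.Div) (hD : 0 ≤ D) :
    ev F D ≤ ev F' D := by
  have := ev_nonneg (fun p => F' p - F p) (fun p => sub_nonneg.2 (hF p)) D hD
  rw [ev_subF] at this
  exact sub_nonneg.1 this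

end general

variable {k : ℕ} [NeZero k]

theorem cF_nonneg (i : ZMod k) (p : (ringG k).Pt) : 0 ≤ cF i p := by
  unfold cF
  refine pt_cases k ?_ ?_ ?_ ?_ ?_ p <;> intros <;> simp <;> split_ifs <;> norm_num

theorem mF_nonneg (i : ZMod k) (p : (ringG k).Pt) : 0 ≤ mF i p := by
  unfold mF
  refine pt_cases k ?_ ?_ ?_ ?_ ?_ p <;> intros <;> simp <;> split_ifs <;> norm_num

theorem sF_nonneg (i : ZMod k) (p : (ringG k).Pt) : 0 ≤ sF i p := by
  unfold sF
  refine pt_cases k ?_ ?_ ?_ ?_ ?_ p <;> intros <;> simp <;> split_ifs <;>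
    linarith

theorem sF_le (i : ZMod k) (p : (ringG k).Pt) : sF i p ≤ cF i p := by
  unfold sF cF
  refine pt_cases k ?_ ?_ ?_ ?_ ?_ p <;> intros <;> simp <;> split_ifs <;>
    linarith

theorem tF_nonneg (i : ZMod k) (p : (ringG k).Pt) : 0 ≤ tF i p := by
  unfold tF
  refine pt_cases k ?_ ?_ ?_ ?_ ?_ p <;> intros <;> simp <;> split_ifs <;>
    linarith

theorem tF_le (i : ZMod k) (p : (ringG k).Pt) : tF i p ≤ 2 * (mF i p : ℝ) := by
  unfold tF mF
  refine pt_cases k ?_ ?_ ?_ ?_ ?_ p <;> intros <;> simp <;> split_ifs <;>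
    linarith

theorem zF_le (i : ZMod k) (p : (ringG k).Pt) : zF i p ≤ tF i p := by
  unfold tF zF
  refine pt_cases k ?_ ?_ ?_ ?_ ?_ p <;> intros <;> simp <;> split_ifs <;>
    linarith

theorem neg_le_zF (i : ZMod k) (p : (ringG k).Pt) : -tF i p ≤ zF i p := by
  unfold tF zF
  refine pt_cases k ?_ ?_ ?_ ?_ ?_ p <;> intros <;> simp <;> split_ifs <;>
    linarith

theorem sum_cm (p : (ringG k).Pt) : ∑ i, (cF i p + mF i p) = 1 := by
  unfold cF mF
  refine pt_cases k ?_ ?_ ?_ ?_ ?_ p <;> intros <;> simp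

theorem ev_mulc {G : MetricGraph} (F : G.Pt → ℝ) (a : ℝ) (D : G.Div) :
    ev (fun p => F p * a) D = ev F D * a :=
  ev_map (AddMonoidHom.mulRight a) F D

theorem ev_divc {G : MetricGraph} (F : G.Pt → ℝ) (a : ℝ) (D : G.Div) :
    ev (fun p => F p / a) D = ev F D / a := by
  simp only [div_eq_mul_inv]
  exact ev_mulc F a⁻¹ D

theorem ev_castc {G : MetricGraph} (F : G.Pt → ℤ) (D : G.Div) :
    ev (fun p => (F p : ℝ)) D = (ev F D : ℤ) :=
  ev_map (Int.castAddHom ℝ) F D

theorem ev_coec {G : MetricGraph} (F : G.Pt → ℝ) (D : G.Div) :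
    ev (fun p => (F p : UnitAddCircle)) D = ((ev F D : ℝ) : UnitAddCircle) :=
  ev_map (QuotientAddGroup.mk' (AddSubgroup.zmultiples (1 : ℝ))) F D

theorem ev_smulc {G : MetricGraph} {A : Type*} [AddCommGroup A] (F : G.Pt → ℤ) (a : A) (D : G.Div) :
    ev (fun p => F p • a) D = ev F D • a :=
  ev_map (zmultiplesHom A a) F D

theorem ev_chi (i : ZMod k) (D : (ringG k).Div) :
    ev (chi k i).fn D = ((ev (zF i) D / 2 : ℝ) : UnitAddCircle) := by
  have h2 : (chi k i).fn = fun p => ((zF i p / 2 : ℝ) : UnitAddCircle) := by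
    funext p; exact chi_fn i p
  rw [h2, ev_coec, ev_divc]

theorem ev_xi (i : ZMod k) (D : (ringG k).Div) :
    ev (xi k i).fn D = ((((ev (cF i) D : ℝ) + ev (mF i) D) / 2 +
      (ev (zF i) D - ev (zF (i - 1)) D) / 4 : ℝ) : UnitAddCircle) := by
  have h2 : (xi k i).fn = fun p => ((((cF i p : ℝ) + mF i p) / 2 +
      (zF i p - zF (i - 1) p) / 4 : ℝ) : UnitAddCircle) := by
    funext p; exact xi_fn i p
  rw [h2, ev_coec, ev_addF, ev_divc, ev_divc, ev_addF, ev_subF, ev_castc, ev_castc]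

theorem ev_posi (D : (ringG k).Div) :
    ev (posi k).fn D = ∑ i : ZMod k, (ev (cF i) D + ev (mF i) D) •
      (ZMod.toAddCircle i : UnitAddCircle) +
      ((∑ i : ZMod k, ((ev (sF i) D + ev (mF i) D) / (2 * k) + ev (tF i) D / (4 * k)) : ℝ) :
        UnitAddCircle) := by
  have h2 : (posi k).fn = fun p => ∑ i : ZMod k, (cF i p + mF i p) •
      (ZMod.toAddCircle i : UnitAddCircle) +
      ((∑ i : ZMod k, ((sF i p + mF i p) / (2 * k) + tF i p / (4 * k)) : ℝ) : UnitAddCircle) := by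
    funext p; exact posi_fn p
  rw [h2, ev_addF, ev_coec, ev_sumF, ev_sumF]
  congr 2
  · funext i
    rw [ev_smulc, ev_addF]
  · congr 1
    funext i
    rw [ev_addF, ev_divc, ev_divc, ev_addF, ev_castc]

/-- the numerical data of an effective divisor of degree `k` with the right characters -/
def datOf (ε : ℝ) (D : (ringG k).Div) (hD : 0 ≤ D) (hdeg : Finsupp.degree D = k)
    (h1 : ∀ i, ‖ev (chi k i).fn D‖ < ε)
    (h2 : ∀ i, ‖ev (xi k i).fn D - ((1 / 2 : ℝ) : UnitAddCircle)‖ < ε) : Data k ε where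
  c i := ev (cF i) D
  m i := ev (mF i) D
  n i := round (ev (zF i) D / 2)
  z i := ev (zF i) D
  τ i := ev (tF i) D
  σ i := ev (sF i) D
  c_nonneg i := ev_nonneg _ (cF_nonneg i) D hD
  m_nonneg i := ev_nonneg _ (mF_nonneg i) D hD
  z_le i := by
    rw [abs_le]
    refine ⟨?_, ev_mono _ _ (zF_le i) D hD⟩
    have := ev_mono _ _ (neg_le_zF i) D hD
    have h3 : ev (fun p => -tF i p) D = -ev (tF i) D := by
      have := ev_mulc (tF i) (-1) D
      simpa using this
    rw [h3] at this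
    exact this
  τ_le i := by
    have := ev_mono _ _ (tF_le i) D hD
    have h3 : ev (fun p => 2 * (mF i p : ℝ)) D = 2 * ((ev (mF i) D : ℤ) : ℝ) := by
      have h4 := ev_mulc (fun p => (mF i p : ℝ)) 2 D
      rw [ev_castc] at h4
      simpa [mul_comm] using h4
    rw [h3] at this
    exact this
  σ_nonneg i := ev_nonneg _ (sF_nonneg i) D hD
  σ_le i := by
    have := ev_mono _ _ (sF_le i) D hD
    rw [ev_castc] at this
    exact this
  total := by
    rw [← hdeg, degree_eq_ev]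
    have h3 : (fun _ => (1 : ℤ)) = fun p : (ringG k).Pt => ∑ i, (cF i p + mF i p) := by
      funext p; exact (sum_cm p).symm
    rw [h3, ev_sumF]
    refine Finset.sum_congr rfl fun i _ => ?_
    rw [ev_addF]
  near_n i := by
    have := h1 i
    rw [ev_chi, UnitAddCircle.norm_eq] at this
    exact this
  near_N i := by
    have := h2 i
    rw [ev_xi, ← AddCircle.coe_sub, UnitAddCircle.norm_eq] at this
    exact ⟨_, this⟩

end Run7.h899
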