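import Mathlib

/-!
# Marked metric graphs and their generalized Brill-Noether loci: definitions
-/

set_option autoImplicit false

noncomputable section

namespace Run7.h899

/-- A metric graph: a finite connected multigraph (vertices `V`, edges `E`, loops and multiple edges
allowed) together with a positive real length for every edge. -/
structure MetricGraph where
  /-- the vertices of the model -/
  V : Type
  /-- the edges of the model -/
  E : Type
  [finV : Fintype V]
  [finE : Fintype E]
  [decV : DecidableEq V]
  [decE : DecidableEq E]
  /-- first end of an edge -/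
  src : E → V
  /-- second end of an edge -/
  tgt : E → V
  /-- length of an edge -/
  len : E → ℝ
  len_pos : ∀ e, 0 < len e
  nonempty : Nonempty V
  connected : ∀ u v : V, Relation.EqvGen (fun a b => ∃ e, src e = a ∧ tgt e = b) u v

attribute [instance] MetricGraph.finV MetricGraph.finE MetricGraph.decV MetricGraph.decE

namespace MetricGraph

variable (G : MetricGraph)

/-- The genus, i.e. the first Betti number `|E| - |V| + 1` of the connected graph. -/
def genus : ℤ := Fintype.card G.E - Fintype.card G.V + 1

/-- The interior points of the edges: a point in the interior of the edge `e` is given by its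
distance `t`, `0 < t < len e`, from the first end of `e`. -/
abbrev IPt : Type := Σ e : G.E, Set.Ioo (0 : ℝ) (G.len e)

/-- The points of the metric graph: the vertices and the interior points of the edges. -/
def Pt : Type := G.V ⊕ G.IPt

/-- The parametrisation of the closed edge `e` by `[0, len e]`. -/
def par (e : G.E) (t : Set.Icc (0 : ℝ) (G.len e)) : G.Pt :=
  if h0 : t.1 = 0 then Sum.inl (G.src e)
  else if h1 : t.1 = G.len e then Sum.inl (G.tgt e)
  else Sum.inr ⟨e, t.1, lt_of_le_of_ne t.2.1 (Ne.symm h0), lt_of_le_of_ne t.2.2 h1⟩

/-- The topology of the metric graph: a set is open if and only if its preimage in every closed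
edge `[0, len e]` is open. -/
instance : TopologicalSpace G.Pt := ⨆ e, TopologicalSpace.coinduced (G.par e) inferInstance

/-- Divisors: finitely supported integer-valued functions on the points. -/
abbrev Div : Type := G.Pt →₀ ℤ

/-- A rational function: a continuous piecewise linear function with integer slopes and finitely
many pieces. It is given by its values at the vertices, by its outgoing slope `slope e` at the first
end of every edge `e`, and by the changes of slope `bend s` at the interior points `s` (zero at all
but finitely many). Its value at the point of `e` at distance `t` from the first end of `e` is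
`val (src e) + slope e * t + ∑ s on e, bend s * max (t - s) 0`; the condition `closes` says that
at `t = len e` this is the value at the second end of `e`. -/
structure RatFun where
  /-- values at the vertices -/
  val : G.V → ℝ
  /-- outgoing slopes at the first ends of the edges -/
  slope : G.E → ℤ
  /-- changes of slope at the interior points of the edges -/
  bend : G.IPt →₀ ℤ
  /-- the values at the second ends of the edges are right -/
  closes : ∀ e, val (G.tgt e) = val (G.src e) + slope e * G.len e +
    bend.sum fun s c => if s.1 = e then (c : ℝ) * (G.len s.1 - s.2) else 0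

variable {G}

/-- The divisor of a rational function: its value at a point is the sum of the outgoing slopes.
At an interior point of an edge this is the change of slope; at a vertex `v` the outgoing slope
along an edge `e` is `slope e` if `v` is the first end, and minus the last slope of `e`, which is
`slope e` plus all the changes of slope on `e`, if `v` is the second end. -/
def RatFun.div (f : G.RatFun) : G.Div :=
  Finsupp.sumElim
    (Finsupp.equivFunOnFinite.symm fun v : G.V => ∑ e : G.E,
      ((if G.src e = v then f.slope e else 0) -
        (if G.tgt e = v then f.slope e + f.bend.sum (fun s c => if s.1 = e then c else 0) else 0)))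
    f.bend

/-- `D` is linearly equivalent to an effective divisor. -/
def HasEff (D : G.Div) : Prop := ∃ f : G.RatFun, 0 ≤ D + f.div

/-- The Baker-Norine rank: `-1` if `D` is not equivalent to an effective divisor, and otherwise the
largest `k ≥ 0` such that `D - F` is equivalent to an effective divisor for every effective divisor
`F` of degree `k`. -/
def rank (D : G.Div) : ℤ :=
  sSup {k : ℤ | k = -1 ∨ (0 ≤ k ∧ ∀ F : G.Div, 0 ≤ F → Finsupp.degree F = k → HasEff (D - F))}

variable (G)

/-- The divisors of degree zero. -/
def Div0 : AddSubgroup G.Div := (Finsupp.degree : G.Div →+ ℤ).ker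

/-- The principal divisors. -/
def Prin : AddSubgroup G.Div := AddSubgroup.closure (Set.range RatFun.div)

/-- `Pic⁰`: the group of linear equivalence classes of divisors of degree zero. -/
def Pic0 : Type := G.Div0 ⧸ (G.Prin.addSubgroupOf G.Div0)

/-- The class of a divisor of degree zero. -/
def cls (D : G.Div0) : G.Pic0 := QuotientAddGroup.mk D

/-- The class of `p 1 + ⋯ + p n - q 1 - ⋯ - q n`. -/
def diffCls (n : ℕ) (x : (Fin n → G.Pt) × (Fin n → G.Pt)) : G.Pic0 :=
  G.cls ⟨∑ i, (Finsupp.single (x.1 i) 1 - Finsupp.single (x.2 i) 1), by
    simp [Div0, AddMonoidHom.mem_ker, map_sum]⟩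

/-- The topology of the real torus `Pic⁰`: the finest topology for which all the maps
`Γⁿ × Γⁿ → Pic⁰`, `(p, q) ↦ [p 1 + ⋯ + p n - q 1 - ⋯ - q n]`, are continuous. -/
instance : TopologicalSpace G.Pic0 :=
  ⨆ n : ℕ, TopologicalSpace.coinduced (G.diffCls n) inferInstance

/-- The generalized Brill-Noether locus `W^λ(Γ, w)`. The box `(x, y)` of `λ` (with `x, y ≥ 1`) is
the cell `c = (c.1, c.2) = (y - 1, x - 1)` of the Young diagram: `c.1` numbers the rows and `c.2`
the columns, starting from `0`. -/
def W (w : G.Pt) (lam : YoungDiagram) : Set G.Pic0 :=
  {P | ∃ D : G.Div0, G.cls D = P ∧ ∀ c ∈ lam.cells,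
    (c.1 : ℤ) ≤ rank ((D : G.Div) + Finsupp.single w (G.genus - (c.2 + 1) + c.1))}

end MetricGraph

/-- `DimLT n X`: the small inductive dimension of the space `X` is less than `n`. -/
def DimLT : ℕ → (X : Type) → [TopologicalSpace X] → Prop
  | 0, X, _ => IsEmpty X
  | n + 1, X, _ => ∀ (x : X) (V : Set X), IsOpen V → x ∈ V →
      ∃ U : Set X, IsOpen U ∧ x ∈ U ∧ U ⊆ V ∧ DimLT n (frontier U)

/-- The local dimension of the subset `W` of `X` at the point `P` is less than `n`: for all
sufficiently small open neighbourhoods `U` of `P` the dimension of `W ∩ U` is less than `n`. -/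
def LocalDimLT {X : Type} [TopologicalSpace X] (W : Set X) (P : X) (n : ℕ) : Prop :=
  ∃ U₀ : Set X, IsOpen U₀ ∧ P ∈ U₀ ∧
    ∀ U : Set X, IsOpen U → P ∈ U → U ⊆ U₀ → DimLT n ↥(W ∩ U)

end Run7.h899
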