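import Pool.Agent.Run7.h899.Conf

/-!
# From the numerical data back to a configuration
-/

set_option autoImplicit false

noncomputable section

namespace Run7.h899

open MetricGraph Finsupp

section general

variable {G : MetricGraph}

theorem eff_zero {D : G.Div} (h : 0 ≤ D) (hd : Finsupp.degree D = 0) : D = 0 := by
  have h1 : ∑ p ∈ D.support, D p = 0 := hd
  have h2 := (Finset.sum_eq_zero_iff_of_nonneg (fun p _ => h p)).1 h1
  ext p
  by_cases hp : p ∈ D.support
  · exact h2 p hp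
  · simpa using hp

theorem eff_pos {D : G.Div} (h : 0 ≤ D) (hd : 0 < Finsupp.degree D) :
    ∃ p, 0 ≤ D - single p 1 := by
  have h1 : ∃ p, 0 < D p := by
    by_contra hcon
    push Not at hcon
    have : D = 0 := by
      ext p
      exact le_antisymm (hcon p) (h p)
    rw [this] at hd
    simp at hd
  obtain ⟨p, hp⟩ := h1
  refine ⟨p, fun q => ?_⟩
  have h2 := h q
  simp only [Finsupp.coe_zero, Pi.zero_apply] at h2
  simp only [Finsupp.coe_zero, Pi.zero_apply, Finsupp.coe_sub, Pi.sub_apply]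
  by_cases hq : p = q
  · subst hq; simp; omega
  · rw [Finsupp.single_eq_of_ne (Ne.symm hq)]; simpa using h2

theorem eff_one {D : G.Div} (h : 0 ≤ D) (hd : Finsupp.degree D = 1) :
    ∃ p, D = single p 1 := by
  obtain ⟨p, hp⟩ := eff_pos h (by rw [hd]; norm_num)
  refine ⟨p, ?_⟩
  have := eff_zero hp (by rw [map_sub, hd]; simp)
  exact sub_eq_zero.1 this

theorem eff_two {D : G.Div} (h : 0 ≤ D) (hd : Finsupp.degree D = 2) :
    ∃ p q, D = single p 1 + single q 1 := by
  obtain ⟨p, hp⟩ := eff_pos h (by rw [hd]; norm_num)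
  obtain ⟨q, hq⟩ := eff_one hp (by rw [map_sub, hd]; simp)
  exact ⟨p, q, by rw [← hq]; abel⟩

/-- localisation of a divisor -/
def loc (w : G.Pt → ℤ) (D : G.Div) : G.Div := ev (fun p => w p • single p (1 : ℤ)) D

theorem ev_loc {A : Type*} [AddCommGroup A] (F : G.Pt → A) (w : G.Pt → ℤ) (D : G.Div) :
    ev F (loc w D) = ev (fun p => w p • F p) D := by
  have := ev_map (ev F : G.Div →ₗ[ℤ] A).toAddMonoidHom (fun p => w p • single p (1 : ℤ)) D
  simp only [LinearMap.toAddMonoidHom_coe] at this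
  unfold loc
  rw [← this]
  congr 2
  funext p
  rw [map_smul, ev_single, one_smul]

theorem loc_apply (w : G.Pt → ℤ) (D : G.Div) (q : G.Pt) : loc w D q = w q * D q := by
  unfold loc
  rw [ev_apply, Finsupp.sum_apply, Finsupp.sum, Finset.sum_eq_single q]
  · simp [mul_comm]
  · intro p _ hp
    simp [Finsupp.single_eq_of_ne (Ne.symm hp)]
  · intro hq
    simp at hq
    simp [hq]

theorem loc_nonneg {w : G.Pt → ℤ} (hw : ∀ p, 0 ≤ w p) {D : G.Div} (hD : 0 ≤ D) :
    0 ≤ loc w D := by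
  intro q
  rw [loc_apply]
  exact mul_nonneg (hw q) (hD q)

theorem degree_loc (w : G.Pt → ℤ) (D : G.Div) : Finsupp.degree (loc w D) = ev w D := by
  rw [degree_eq_ev, ev_loc]
  simp

end general

variable {k : ℕ} [NeZero k]

theorem eq_sum_loc (D : (ringG k).Div) : D = ∑ i, (loc (cF i) D + loc (mF i) D) := by
  have h1 : (fun p : (ringG k).Pt => single p (1 : ℤ)) = fun p =>
      ∑ i, (cF i p • single p (1 : ℤ) + mF i p • single p (1 : ℤ)) := by
    funext p
    simp only [← add_smul]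
    rw [← Finset.sum_smul, sum_cm, one_smul]
  conv_lhs => rw [← ev_delta D, h1, ev_sumF]
  refine Finset.sum_congr rfl fun i _ => ?_
  rw [ev_addF]
  rfl

theorem mz (i : ZMod k) (p : (ringG k).Pt) : mF i p • zF i p = zF i p := by
  unfold mF zF
  refine pt_cases k ?_ ?_ ?_ ?_ ?_ p
  · intro j; simp
  · intro j; simp
  · intro j t h0 h1; simp
  · intro j t h0 h1
    simp only [pfun_up]
    split_ifs <;> simp
  · intro j t h0 h1
    simp only [pfun_dn]
    split_ifs <;> simp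

/-- points of the open pair `i` -/
theorem pt_of_mF {i : ZMod k} {p : (ringG k).Pt} (h : mF i p ≠ 0) :
    (∃ t h0 h1, p = up k i t h0 h1) ∨ (∃ t h0 h1, p = dn k i t h0 h1) := by
  revert h
  unfold mF
  refine pt_cases k ?_ ?_ ?_ ?_ ?_ p
  · intro j h; simp at h
  · intro j h; simp at h
  · intro j t h0 h1 h; simp at h
  · intro j t h0 h1 h
    simp at h
    subst h
    exact Or.inl ⟨t, h0, h1, rfl⟩
  · intro j t h0 h1 h
    simp at h
    subst h
    exact Or.inr ⟨t, h0, h1, rfl⟩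

theorem br_zero (i : ZMod k) (h) : br i ⟨0, h⟩ = rv k (i - 1) := par_zero (G := ringG k) (i, 0) h

theorem br_one (i : ZMod k) (h) : br i ⟨1, h⟩ = lv k i := par_len (G := ringG k) (i, 0) h

theorem br_int (i : ZMod k) (t h h0 h1) : br i ⟨t, h⟩ = bp k i t h0 h1 :=
  par_int (G := ringG k) (i, 0) ⟨t, h⟩ h0 h1

/-- points of the closed bridge `i` -/
theorem pt_of_cF {i : ZMod k} {p : (ringG k).Pt} (h : cF i p ≠ 0) :
    ∃ x : Set.Icc (0 : ℝ) 1, p = br i x := by
  revert h
  unfold cF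
  refine pt_cases k ?_ ?_ ?_ ?_ ?_ p
  · intro j h
    simp at h
    subst h
    exact ⟨⟨1, by norm_num, le_refl _⟩, (br_one j _).symm⟩
  · intro j h
    simp at h
    subst h
    refine ⟨⟨0, le_refl _, by norm_num⟩, ?_⟩
    rw [br_zero, add_sub_cancel_right]
  · intro j t h0 h1 h
    simp at h
    subst h
    exact ⟨⟨t, h0.le, h1.le⟩, (br_int j t _ h0 h1).symm⟩
  · intro j t h0 h1 h; simp at h
  · intro j t h0 h1 h; simp at h

theorem zF_up (i : ZMod k) (t h0 h1) : zF i (up k i t h0 h1) = t := by simp [zF]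
theorem zF_dn (i : ZMod k) (t h0 h1) : zF i (dn k i t h0 h1) = -t := by simp [zF]

theorem mF_ne_of_loc {i : ZMod k} {D : (ringG k).Div} {p : (ringG k).Pt}
    (h : loc (mF i) D p ≠ 0) : mF i p ≠ 0 := by
  intro h'
  rw [loc_apply, h', zero_mul] at h
  exact h rfl

theorem cF_ne_of_loc {i : ZMod k} {D : (ringG k).Div} {p : (ringG k).Pt}
    (h : loc (cF i) D p ≠ 0) : cF i p ≠ 0 := by
  intro h'
  rw [loc_apply, h', zero_mul] at h
  exact h rfl

/-- the part of the divisor on the open pair `i` -/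
theorem pair_part {D : (ringG k).Div} (hD : 0 ≤ D) (i : ZMod k) (n : ℤ)
    (hz : ev (zF i) D = 2 * n) (hm : ev (mF i) D - |n| ≤ 1) (hn : |n| ≤ 1)
    (hnm : |n| ≤ ev (mF i) D) :
    loc (mF i) D - |n| • (single (lv k i) 1 + single (rv k i) 1) ∈ (ringG k).Prin := by
  have hloc := loc_nonneg (mF_nonneg i) hD
  have hdeg := degree_loc (mF i) D
  have hz' : ev (zF i) (loc (mF i) D) = 2 * n := by
    rw [ev_loc]; simp only [mz]; exact hz
  have hn0 : 0 ≤ |n| := abs_nonneg n
  have habs : |n| = 0 ∨ |n| = 1 := by omega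
  have key1 : ev (mF i) D ≠ 1 := by
    intro h1
    obtain ⟨p, hp⟩ := eff_one hloc (by rw [hdeg, h1])
    have hpm : mF i p ≠ 0 := mF_ne_of_loc (D := D) (by rw [hp]; simp)
    rw [hp, ev_single, one_smul] at hz'
    have hn' : |(n : ℝ)| ≤ 1 := by exact_mod_cast hn
    rcases pt_of_mF hpm with ⟨t, h0, h1', rfl⟩ | ⟨t, h0, h1', rfl⟩
    · rw [zF_up] at hz'
      have h3 : (0 : ℝ) < n := by linarith
      have h4 : (0 : ℤ) < n := by exact_mod_cast h3
      have h5 : (n : ℝ) < 1 := by linarith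
      have h6 : n < 1 := by exact_mod_cast h5
      omega
    · rw [zF_dn] at hz'
      have h3 : (n : ℝ) < 0 := by linarith
      have h4 : n < 0 := by exact_mod_cast h3
      have h5 : (-1 : ℝ) < n := by linarith
      have h6 : -1 < n := by exact_mod_cast h5
      omega
  rcases habs with h0 | h1
  · have hm0 : ev (mF i) D = 0 := by omega
    have := eff_zero hloc (by rw [hdeg, hm0])
    rw [this, h0]; simp
  · have hm2 : ev (mF i) D = 2 := by omega
    obtain ⟨p, q, hpq⟩ := eff_two hloc (by rw [hdeg, hm2])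
    have hp : mF i p ≠ 0 := mF_ne_of_loc (D := D) (by
      rw [hpq]
      have h2 : 0 ≤ (single q 1 : (ringG k).Div) p := single_nonneg' q (by norm_num) p
      simp only [Finsupp.coe_add, Pi.add_apply, Finsupp.single_eq_same]
      omega)
    have hq : mF i q ≠ 0 := mF_ne_of_loc (D := D) (by
      rw [hpq]
      have h2 : 0 ≤ (single p 1 : (ringG k).Div) q := single_nonneg' p (by norm_num) q
      simp only [Finsupp.coe_add, Pi.add_apply, Finsupp.single_eq_same]
      omega)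
    rw [hpq, map_add, ev_single, ev_single, one_smul, one_smul] at hz'
    have habsR : |(n : ℝ)| = 1 := by exact_mod_cast h1
    rw [hpq, h1, one_smul]
    rcases pt_of_mF hp with ⟨t, a0, a1, rfl⟩ | ⟨t, a0, a1, rfl⟩ <;>
    rcases pt_of_mF hq with ⟨u, b0, b1, rfl⟩ | ⟨u, b0, b1, rfl⟩
    · rw [zF_up, zF_up] at hz'
      have hu : u = 2 - t := by
        rcases abs_cases (n : ℝ) with ⟨h3, _⟩ | ⟨h3, _⟩ <;> linarith
      subst hu
      exact pair_up i t a0 a1 b0 b1
    · exfalso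
      rw [zF_up, zF_dn] at hz'
      rcases abs_cases (n : ℝ) with ⟨h3, _⟩ | ⟨h3, _⟩ <;> linarith
    · exfalso
      rw [zF_up, zF_dn] at hz'
      rcases abs_cases (n : ℝ) with ⟨h3, _⟩ | ⟨h3, _⟩ <;> linarith
    · rw [zF_dn, zF_dn] at hz'
      have hu : u = 2 - t := by
        rcases abs_cases (n : ℝ) with ⟨h3, _⟩ | ⟨h3, _⟩ <;> linarith
      subst hu
      exact pair_dn i t a0 a1 b0 b1

/-- the part of the divisor at the bridge `i` -/
theorem bridge_part {D : (ringG k).Div} (hD : 0 ≤ D) (i : ZMod k) (a b : ℤ) (ha : 0 ≤ a)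
    (hb : 0 ≤ b) (h : ev (cF i) D + a + b = 1) :
    ∃ x : Set.Icc (0 : ℝ) 1, loc (cF i) D + a • single (lv k i) (1 : ℤ) +
      b • single (rv k (i - 1)) (1 : ℤ) = single (br i x) 1 := by
  have hloc := loc_nonneg (cF_nonneg i) hD
  have hdeg := degree_loc (cF i) D
  have hc : 0 ≤ ev (cF i) D := ev_nonneg _ (cF_nonneg i) D hD
  have h3 : (ev (cF i) D = 1 ∧ a = 0 ∧ b = 0) ∨ (ev (cF i) D = 0 ∧ a = 1 ∧ b = 0) ∨
      (ev (cF i) D = 0 ∧ a = 0 ∧ b = 1) := by omega
  rcases h3 with ⟨h1, rfl, rfl⟩ | ⟨h1, rfl, rfl⟩ | ⟨h1, rfl, rfl⟩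
  · obtain ⟨p, hp⟩ := eff_one hloc (by rw [hdeg, h1])
    have hpm : cF i p ≠ 0 := cF_ne_of_loc (D := D) (by rw [hp]; simp)
    obtain ⟨x, rfl⟩ := pt_of_cF hpm
    exact ⟨x, by rw [hp]; simp⟩
  · have := eff_zero hloc (by rw [hdeg, h1])
    exact ⟨⟨1, by norm_num, le_refl _⟩, by rw [this, br_one]; simp⟩
  · have := eff_zero hloc (by rw [hdeg, h1])
    exact ⟨⟨0, le_refl _, by norm_num⟩, by rw [this, br_zero]; simp⟩

end Run7.h899
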