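import Pool.Agent.Run7.h899.Ring
import Pool.Agent.Run7.h899.Count

/-!
# Numerical data of a divisor on the ring
-/

set_option autoImplicit false

noncomputable section

namespace Run7.h899

open MetricGraph Finsupp

variable (k : ℕ) [NeZero k]

/-- the vertex `l j` -/
def lv (j : ZMod k) : (ringG k).Pt := vt (G := ringG k) (j, false)
/-- the vertex `r j` -/
def rv (j : ZMod k) : (ringG k).Pt := vt (G := ringG k) (j, true)
/-- interior points of the edge `(j, 0)` -/
def bp (j : ZMod k) (t : ℝ) (h0 : 0 < t) (h1 : t < 1) : (ringG k).Pt :=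
  ip (G := ringG k) ⟨(j, 0), t, h0, h1⟩
/-- interior points of the edge `(j, 1)` -/
def up (j : ZMod k) (t : ℝ) (h0 : 0 < t) (h1 : t < 2) : (ringG k).Pt :=
  ip (G := ringG k) ⟨(j, 1), t, h0, h1⟩
/-- interior points of the edge `(j, 2)` -/
def dn (j : ZMod k) (t : ℝ) (h0 : 0 < t) (h1 : t < 2) : (ringG k).Pt :=
  ip (G := ringG k) ⟨(j, 2), t, h0, h1⟩

@[elab_as_elim] theorem pt_cases {motive : (ringG k).Pt → Prop} (hl : ∀ j, motive (lv k j))
    (hr : ∀ j, motive (rv k j)) (hb : ∀ j t h0 h1, motive (bp k j t h0 h1))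
    (hu : ∀ j t h0 h1, motive (up k j t h0 h1)) (hd : ∀ j t h0 h1, motive (dn k j t h0 h1))
    (p : (ringG k).Pt) : motive p := by
  rcases p with ⟨j, b⟩ | ⟨⟨j, l⟩, t, h0, h1⟩
  · cases b
    · exact hl j
    · exact hr j
  · fin_cases l
    · exact hb j t h0 h1
    · exact hu j t h0 h1
    · exact hd j t h0 h1

variable {k}

/-- functions on the points of the ring -/
def pfun {A : Type*} (L R : ZMod k → A) (B U D : ZMod k → ℝ → A) : (ringG k).Pt → A :=
  Sum.elim (vfun k L R) (fun s => efun k B U D s.1 s.2.1)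

section
variable {A : Type*} (L R : ZMod k → A) (B U D : ZMod k → ℝ → A)
@[simp] theorem pfun_lv (j : ZMod k) : pfun L R B U D (lv k j) = L j := rfl
@[simp] theorem pfun_rv (j : ZMod k) : pfun L R B U D (rv k j) = R j := rfl
@[simp] theorem pfun_bp (j : ZMod k) (t h0 h1) : pfun L R B U D (bp k j t h0 h1) = B j t := rfl
@[simp] theorem pfun_up (j : ZMod k) (t h0 h1) : pfun L R B U D (up k j t h0 h1) = U j t := rfl
@[simp] theorem pfun_dn (j : ZMod k) (t h0 h1) : pfun L R B U D (dn k j t h0 h1) = D j t := rfl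
end

/-- indicator of the closed bridge `i` -/
def cF (i : ZMod k) : (ringG k).Pt → ℤ :=
  pfun (fun j => if j = i then 1 else 0) (fun j => if j + 1 = i then 1 else 0)
    (fun j _ => if j = i then 1 else 0) 0 0
/-- indicator of the open pair `i` -/
def mF (i : ZMod k) : (ringG k).Pt → ℤ :=
  pfun 0 0 0 (fun j _ => if j = i then 1 else 0) (fun j _ => if j = i then 1 else 0)
/-- signed position on the open pair -/
def zF (i : ZMod k) : (ringG k).Pt → ℝ :=
  pfun 0 0 0 (fun j t => if j = i then t else 0) (fun j t => if j = i then -t else 0)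
/-- position on the open pair -/
def tF (i : ZMod k) : (ringG k).Pt → ℝ :=
  pfun 0 0 0 (fun j t => if j = i then t else 0) (fun j t => if j = i then t else 0)
/-- position on the bridge -/
def sF (i : ZMod k) : (ringG k).Pt → ℝ :=
  pfun (fun j => if j = i then 1 else 0) 0 (fun j t => if j = i then t else 0) 0 0

section chars

@[simp] theorem mk_lv (K0 K1 K2 L R h0 h1 h2 hl hr) (j : ZMod k) :
    (mkChr k K0 K1 K2 L R h0 h1 h2 hl hr).fn (lv k j) = L j := rfl
@[simp] theorem mk_rv (K0 K1 K2 L R h0 h1 h2 hl hr) (j : ZMod k) :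
    (mkChr k K0 K1 K2 L R h0 h1 h2 hl hr).fn (rv k j) = R j := rfl
@[simp] theorem mk_bp (K0 K1 K2 L R h0 h1 h2 hl hr) (j : ZMod k) (t a b) :
    (mkChr k K0 K1 K2 L R h0 h1 h2 hl hr).fn (bp k j t a b) =
      R (j - 1) + ((K0 j * t : ℝ) : UnitAddCircle) := rfl
@[simp] theorem mk_up (K0 K1 K2 L R h0 h1 h2 hl hr) (j : ZMod k) (t a b) :
    (mkChr k K0 K1 K2 L R h0 h1 h2 hl hr).fn (up k j t a b) =
      L j + ((K1 j * t : ℝ) : UnitAddCircle) := rfl
@[simp] theorem mk_dn (K0 K1 K2 L R h0 h1 h2 hl hr) (j : ZMod k) (t a b) :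
    (mkChr k K0 K1 K2 L R h0 h1 h2 hl hr).fn (dn k j t a b) =
      L j + ((K2 j * t : ℝ) : UnitAddCircle) := rfl

theorem chi_fn (i : ZMod k) (p : (ringG k).Pt) :
    (chi k i).fn p = ((zF i p / 2 : ℝ) : UnitAddCircle) := by
  unfold chi zF
  refine pt_cases k ?_ ?_ ?_ ?_ ?_ p
  · intro j; simp
  · intro j; simp
  · intro j t h0 h1; simp
  · intro j t h0 h1
    simp only [mk_up, pfun_up, Pi.zero_apply, zero_add]
    congr 1
    split_ifs <;> ring
  · intro j t h0 h1
    simp only [mk_dn, pfun_dn, Pi.zero_apply, zero_add]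
    congr 1
    split_ifs <;> ring

theorem xi_fn (i : ZMod k) (p : (ringG k).Pt) :
    (xi k i).fn p = ((((cF i p : ℝ) + mF i p) / 2 + (zF i p - zF (i - 1) p) / 4 : ℝ) :
      UnitAddCircle) := by
  have e1 : ∀ j : ZMod k, (j = i - 1) = (j + 1 = i) := by
    intro j; rw [eq_sub_iff_add_eq]
  unfold xi zF cF mF
  refine pt_cases k ?_ ?_ ?_ ?_ ?_ p
  · intro j
    simp only [mk_lv, pfun_lv, Pi.zero_apply]
    congr 1
    push_cast
    split_ifs <;> norm_num
  · intro j
    simp only [mk_rv, pfun_rv, Pi.zero_apply]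
    congr 1
    push_cast
    split_ifs <;> norm_num
  · intro j t h0 h1
    simp only [mk_bp, pfun_bp, Pi.zero_apply, sub_add_cancel]
    rw [← AddCircle.coe_add]
    congr 1
    push_cast
    split_ifs <;> norm_num
  · intro j t h0 h1
    simp only [mk_up, pfun_up, Pi.zero_apply, e1]
    rw [← AddCircle.coe_add]
    congr 1
    push_cast
    split_ifs <;> ring
  · intro j t h0 h1
    simp only [mk_dn, pfun_dn, Pi.zero_apply, e1]
    rw [← AddCircle.coe_add]
    congr 1
    push_cast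
    split_ifs <;> ring

theorem posi_fn (p : (ringG k).Pt) :
    (posi k).fn p = ∑ i : ZMod k, (cF i p + mF i p) • (ZMod.toAddCircle i : UnitAddCircle) +
      ((∑ i : ZMod k, ((sF i p + mF i p) / (2 * k) + tF i p / (4 * k)) : ℝ) : UnitAddCircle) := by
  have e1 : ∀ i j : ZMod k, (j = i - 1) = (j + 1 = i) := by
    intro i j; rw [eq_sub_iff_add_eq]
  unfold posi sF cF mF tF
  refine pt_cases k ?_ ?_ ?_ ?_ ?_ p
  · intro j
    simp only [mk_lv, pfun_lv, Pi.zero_apply]
    simp [ite_smul, ite_div]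
  · intro j
    simp only [mk_rv, pfun_rv, Pi.zero_apply]
    simp [ite_smul]
  · intro j t h0 h1
    simp only [mk_bp, pfun_bp, Pi.zero_apply, sub_add_cancel]
    simp [ite_smul, ite_div]
    congr 1
    ring
  · intro j t h0 h1
    simp only [mk_up, pfun_up, Pi.zero_apply]
    simp [ite_smul, ite_div, Finset.sum_add_distrib]
    rw [add_assoc]
    congr 2
    ring_nf
  · intro j t h0 h1
    simp only [mk_dn, pfun_dn, Pi.zero_apply]
    simp [ite_smul, ite_div, Finset.sum_add_distrib]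
    rw [add_assoc]
    congr 2
    ring_nf

end chars

end Run7.h899
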