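import Pool.Agent.Run7.h899.Top

/-!
# The local structure of the locus
-/

set_option autoImplicit false

noncomputable section

namespace Run7.h899

open MetricGraph Finsupp

variable {k : ℕ} [NeZero k]

/-- representative of a point of the circle in `[-1/2, 1/2)` -/
def rep (y : UnitAddCircle) : ℝ := (AddCircle.equivIco (1 : ℝ) (-1 / 2) y : ℝ)

theorem rep_coe {x : ℝ} (h : |x| < 1 / 2) : rep (x : UnitAddCircle) = x := by
  have h1 := abs_lt.1 h
  unfold rep
  rw [AddCircle.equivIco_coe_of_mem]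
  constructor <;> linarith

theorem coe_rep (y : UnitAddCircle) : ((rep y : ℝ) : UnitAddCircle) = y :=
  AddCircle.coe_equivIco

theorem continuousAt_rep {x : ℝ} (h : |x| < 1 / 2) : ContinuousAt rep (x : UnitAddCircle) := by
  have h1 := abs_lt.1 h
  unfold rep
  refine ContinuousAt.comp (g := Subtype.val) continuous_subtype_val.continuousAt
    (AddCircle.continuousAt_equivIco (1 : ℝ) (-1 / 2) ?_)
  intro h2
  have h3 := congrArg rep h2
  rw [rep_coe h] at h3
  have h4 : rep ((-1 / 2 : ℝ) : UnitAddCircle) = -1 / 2 := by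
    unfold rep
    rw [AddCircle.equivIco_coe_of_mem]
    constructor <;> norm_num
  rw [h4] at h3
  linarith

/-- the coordinate on the segment -/
def coord (w : (ringG k).Pt) (P : (ringG k).Pic0) : ℝ :=
  3 / 2 + 2 * k * rep ((posi k).onPic P + (k : ℤ) • (posi k).fn w - pos0 k (3 / 2))

theorem small_half (hk : 4 ≤ k) {s : ℝ} (hs : s ∈ Set.Ioo (5 / 4 : ℝ) (7 / 4)) :
    |(s - 3 / 2) / (2 * k)| < 1 / 2 := by
  have hk0 : (4 : ℝ) ≤ k := by exact_mod_cast hk
  have h1 := norm_small hk hs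
  have : (1 : ℝ) / (8 * k) ≤ 1 / 2 := by
    apply one_div_le_one_div_of_le <;> linarith
  linarith

theorem arg_gam (hk : 4 ≤ k) (w : (ringG k).Pt) {s : ℝ} (hs : s ∈ Set.Ioo (5 / 4 : ℝ) (7 / 4)) :
    (posi k).onPic (gam w s) + (k : ℤ) • (posi k).fn w - pos0 k (3 / 2) =
      (((s - 3 / 2) / (2 * k) : ℝ) : UnitAddCircle) := by
  have hk0 : (4 : ℝ) ≤ k := by exact_mod_cast hk
  rw [posi_gam w (by linarith [hs.1]) (by linarith [hs.2]), pos0_sub]

theorem coord_gam (hk : 4 ≤ k) (w : (ringG k).Pt) {s : ℝ}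
    (hs : s ∈ Set.Ioo (5 / 4 : ℝ) (7 / 4)) : coord w (gam w s) = s := by
  have hk0 : (4 : ℝ) ≤ k := by exact_mod_cast hk
  unfold coord
  rw [arg_gam hk w hs, rep_coe (small_half hk hs)]
  have : (k : ℝ) ≠ 0 := by linarith
  field_simp
  ring

theorem continuousAt_coord (hk : 4 ≤ k) (w : (ringG k).Pt) {s : ℝ}
    (hs : s ∈ Set.Ioo (5 / 4 : ℝ) (7 / 4)) : ContinuousAt (coord w) (gam w s) := by
  unfold coord
  refine continuousAt_const.add (continuousAt_const.mul ?_)
  have h1 : Continuous fun P => (posi k).onPic P + (k : ℤ) • (posi k).fn w - pos0 k (3 / 2) :=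
    ((posi k).continuous_onPic.add continuous_const).sub continuous_const
  refine ContinuousAt.comp (g := rep) ?_ h1.continuousAt
  rw [arg_gam hk w hs]
  exact continuousAt_rep (small_half hk hs)

theorem aff_mem {u : ℝ} (hu : u ∈ Set.Ioo (-1 : ℝ) 1) :
    3 / 2 + u / 4 ∈ Set.Ioo (5 / 4 : ℝ) (7 / 4) := by
  constructor <;> linarith [hu.1, hu.2]

/-- the homeomorphism -/
def segHomeo (hk : 4 ≤ k) (w : (ringG k).Pt) :
    Set.Ioo (-1 : ℝ) 1 ≃ₜ ↥((ringG k).W w sq ∩ nbd w) where
  toFun u := ⟨gam w (3 / 2 + u / 4), (mem_iff hk w _).2 ⟨_, aff_mem u.2, rfl⟩⟩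
  invFun P := ⟨4 * (coord w P - 3 / 2), by
    obtain ⟨s, hs, h⟩ := (mem_iff hk w _).1 P.2
    rw [← h, coord_gam hk w hs]
    constructor <;> linarith [hs.1, hs.2]⟩
  left_inv u := by
    apply Subtype.ext
    simp only
    rw [coord_gam hk w (aff_mem u.2)]
    ring
  right_inv P := by
    apply Subtype.ext
    simp only
    obtain ⟨s, hs, h⟩ := (mem_iff hk w _).1 P.2
    rw [← h, coord_gam hk w hs]
    congr 1
    ring
  continuous_toFun := by
    refine Continuous.subtype_mk ?_ _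
    exact (continuous_gam w).comp (continuous_const.add (continuous_subtype_val.div_const _))
  continuous_invFun := by
    refine Continuous.subtype_mk ?_ _
    rw [continuous_iff_continuousAt]
    intro P
    obtain ⟨s, hs, h⟩ := (mem_iff hk w _).1 P.2
    refine continuousAt_const.mul (ContinuousAt.sub ?_ continuousAt_const)
    refine ContinuousAt.comp (g := coord w) ?_ continuous_subtype_val.continuousAt
    rw [← h]
    exact continuousAt_coord hk w hs

theorem nonempty_homeo (hk : 4 ≤ k) (w : (ringG k).Pt) :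
    Nonempty (↥((ringG k).W w sq ∩ nbd w) ≃ₜ ℝ) :=
  ⟨(segHomeo hk w).symm.trans (orderIsoIooNegOneOne ℝ).toHomeomorph.symm⟩

theorem local_dim (hk : 4 ≤ k) (w : (ringG k).Pt) :
    LocalDimLT ((ringG k).W w sq) (gam w (3 / 2)) 2 := by
  refine ⟨nbd w, isOpen_nbd w, gam_mem_nbd hk w (by constructor <;> norm_num), ?_⟩
  intro U hU hP hsub
  have h1 : (ringG k).W w sq ∩ U ⊆ (ringG k).W w sq ∩ nbd w :=
    Set.inter_subset_inter_right _ hsub
  refine dimLT_two_of_embedding _ (fun x => (((segHomeo hk w).symm (Set.inclusion h1 x) :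
    Set.Ioo (-1 : ℝ) 1) : ℝ)) ?_
  exact Topology.IsEmbedding.subtypeVal.comp
    (((segHomeo hk w).symm.isEmbedding).comp (Topology.IsEmbedding.inclusion h1))

end Run7.h899
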