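import Pool.Agent.Run7.h899.Extract

/-!
# Divisor classes near the special one
-/

set_option autoImplicit false

noncomputable section

namespace Run7.h899

open MetricGraph Finsupp

variable {k : ℕ} [NeZero k]

theorem exists_conf {D : (ringG k).Div} (hD : 0 ≤ D) (hdeg : Finsupp.degree D = k)
    (h1 : ∀ i, ev (chi k i).fn D = 0)
    (h2 : ∀ i, ‖ev (xi k i).fn D - ((1 / 2 : ℝ) : UnitAddCircle)‖ < 1 / (8 * k)) :
    ∃ x : ZMod k → Set.Icc (0 : ℝ) 1, conf x - D ∈ (ringG k).Prin := by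
  have hk0 : (0 : ℝ) < k := by exact_mod_cast NeZero.pos k
  have hk1 : (1 : ℝ) ≤ k := by exact_mod_cast NeZero.pos k
  have hε : (1 : ℝ) / (8 * k) ≤ 1 / 8 := by
    apply one_div_le_one_div_of_le <;> linarith
  have hεpos : (0 : ℝ) < 1 / (8 * k) := by positivity
  set d := datOf (1 / (8 * k)) D hD hdeg (fun i => by rw [h1 i, norm_zero]; exact hεpos) h2 with hd
  have hz : ∀ i, ev (zF i) D = 2 * (d.n i : ℝ) := by
    intro i
    have h3 := h1 i
    rw [ev_chi] at h3
    have h4 : ‖((ev (zF i) D / 2 : ℝ) : UnitAddCircle)‖ = 0 := by rw [h3, norm_zero]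
    rw [UnitAddCircle.norm_eq, abs_eq_zero, sub_eq_zero] at h4
    have h5 : d.n i = round (ev (zF i) D / 2) := rfl
    rw [h5, ← h4]; ring
  have hone := d.one hε
  have hle := d.abs_n_le hε
  have hn1 : ∀ i, |d.n i| ≤ 1 := by
    intro i
    have h3 := hone (i + 1)
    rw [add_sub_cancel_right] at h3
    have h4 := hle (i + 1)
    have h5 := d.c_nonneg (i + 1)
    omega
  have hpp : ∀ i, loc (mF i) D - |d.n i| • (single (lv k i) 1 + single (rv k i) 1) ∈
      (ringG k).Prin := by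
    intro i
    refine pair_part hD i (d.n i) (hz i) ?_ (hn1 i) (hle i)
    have h3 := hone i
    have h5 := d.c_nonneg i
    have h6 := abs_nonneg (d.n (i - 1))
    change d.m i - |d.n i| ≤ 1
    omega
  have hm : ∀ i, d.m i = 2 * |d.n i| := by
    intro i
    have h3 := degree_of_mem_Prin (hpp i)
    rw [map_sub, degree_loc, map_zsmul, map_add] at h3
    simp at h3
    have h4 : d.m i = ev (mF i) D := rfl
    omega
  have hbp : ∀ i, ∃ x : Set.Icc (0 : ℝ) 1, loc (cF i) D + |d.n i| • single (lv k i) (1 : ℤ) +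
      |d.n (i - 1)| • single (rv k (i - 1)) (1 : ℤ) = single (br i x) 1 := by
    intro i
    refine bridge_part hD i _ _ (abs_nonneg _) (abs_nonneg _) ?_
    have h3 := hone i
    have h4 := hm i
    change d.c i + |d.n i| + |d.n (i - 1)| = 1
    omega
  choose x hx using hbp
  refine ⟨x, ?_⟩
  have h3 : conf x - D = ∑ i, -(loc (mF i) D - |d.n i| • (single (lv k i) 1 + single (rv k i) 1)) := by
    conv_lhs => rw [eq_sum_loc D]
    unfold conf
    simp only [← hx]
    have h4 := sum_shift (fun i : ZMod k => |d.n i| • (single (rv k i) (1 : ℤ) : (ringG k).Div))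
    simp only [Finset.sum_add_distrib, Finset.sum_neg_distrib, Finset.sum_sub_distrib, smul_add]
    rw [h4]
    abel
  rw [h3]
  exact (ringG k).Prin.sum_mem fun i _ => (ringG k).Prin.neg_mem (hpp i)

/-- the basic position -/
def pos0 (k : ℕ) [NeZero k] (s : ℝ) : UnitAddCircle :=
  ∑ i : ZMod k, (ZMod.toAddCircle i : UnitAddCircle) + ((s / (2 * k) : ℝ) : UnitAddCircle)

theorem cF_br (i j : ZMod k) (x : Set.Icc (0 : ℝ) 1) : cF i (br j x) = if j = i then 1 else 0 := by
  obtain ⟨x, h0, h1⟩ := x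
  rcases h0.eq_or_lt with h | h
  · subst h; rw [br_zero]; simp [cF]
  · rcases h1.eq_or_lt with h' | h'
    · subst h'; rw [br_one]; simp [cF]
    · rw [br_int j x _ h h']; simp [cF]

theorem mF_br (i j : ZMod k) (x : Set.Icc (0 : ℝ) 1) : mF i (br j x) = 0 := by
  obtain ⟨x, h0, h1⟩ := x
  rcases h0.eq_or_lt with h | h
  · subst h; rw [br_zero]; simp [mF]
  · rcases h1.eq_or_lt with h' | h'
    · subst h'; rw [br_one]; simp [mF]
    · rw [br_int j x _ h h']; simp [mF]

theorem zF_br (i j : ZMod k) (x : Set.Icc (0 : ℝ) 1) : zF i (br j x) = 0 := by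
  obtain ⟨x, h0, h1⟩ := x
  rcases h0.eq_or_lt with h | h
  · subst h; rw [br_zero]; simp [zF]
  · rcases h1.eq_or_lt with h' | h'
    · subst h'; rw [br_one]; simp [zF]
    · rw [br_int j x _ h h']; simp [zF]

theorem tF_br (i j : ZMod k) (x : Set.Icc (0 : ℝ) 1) : tF i (br j x) = 0 := by
  obtain ⟨x, h0, h1⟩ := x
  rcases h0.eq_or_lt with h | h
  · subst h; rw [br_zero]; simp [tF]
  · rcases h1.eq_or_lt with h' | h'
    · subst h'; rw [br_one]; simp [tF]
    · rw [br_int j x _ h h']; simp [tF]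

theorem sF_br (i j : ZMod k) (x : Set.Icc (0 : ℝ) 1) :
    sF i (br j x) = if j = i then (x : ℝ) else 0 := by
  obtain ⟨x, h0, h1⟩ := x
  rcases h0.eq_or_lt with h | h
  · subst h; rw [br_zero]; simp [sF]
  · rcases h1.eq_or_lt with h' | h'
    · subst h'; rw [br_one]; simp [sF]
    · rw [br_int j x _ h h']; simp [sF]

theorem ev_conf {A : Type*} [AddCommGroup A] (F : (ringG k).Pt → A)
    (x : ZMod k → Set.Icc (0 : ℝ) 1) : ev F (conf x) = ∑ i, F (br i (x i)) := by
  unfold conf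
  rw [map_sum]
  refine Finset.sum_congr rfl fun i _ => ?_
  rw [ev_single, one_smul]

theorem degree_conf (x : ZMod k → Set.Icc (0 : ℝ) 1) : Finsupp.degree (conf x) = k := by
  rw [degree_eq_ev, ev_conf]
  simp [ZMod.card]

theorem chi_conf (i : ZMod k) (x : ZMod k → Set.Icc (0 : ℝ) 1) :
    ev (chi k i).fn (conf x) = 0 := by
  rw [ev_chi, ev_conf]
  simp [zF_br]

theorem xi_conf (i : ZMod k) (x : ZMod k → Set.Icc (0 : ℝ) 1) :
    ev (xi k i).fn (conf x) = ((1 / 2 : ℝ) : UnitAddCircle) := by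
  rw [ev_xi, ev_conf, ev_conf, ev_conf, ev_conf]
  simp [zF_br, cF_br, mF_br]

theorem posi_conf (x : ZMod k → Set.Icc (0 : ℝ) 1) :
    ev (posi k).fn (conf x) = pos0 k (∑ i, (x i : ℝ)) := by
  rw [ev_posi]
  simp only [ev_conf, sF_br, cF_br, mF_br, tF_br]
  unfold pos0
  simp [Finset.sum_div]

/-- the numerical form of the conditions on a class -/
structure NearD (D : (ringG k).Div) : Prop where
  deg : Finsupp.degree D = k
  chi : ∀ i, ‖ev (chi k i).fn D‖ < 1 / (8 * k)
  xi : ∀ i, ‖ev (xi k i).fn D - ((1 / 2 : ℝ) : UnitAddCircle)‖ < 1 / (8 * k)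
  posi : ‖ev (posi k).fn D - pos0 k (3 / 2)‖ < 1 / (8 * k)

theorem pos0_sub (s t : ℝ) : pos0 k s - pos0 k t = (((s - t) / (2 * k) : ℝ) : UnitAddCircle) := by
  unfold pos0
  rw [sub_div, AddCircle.coe_sub]
  abel

theorem chi_zero (hk : 1 < k) {D : (ringG k).Div} (h : NearD D) (j : ZMod k)
    (hE : HasEff (D - single (lv k (j + 1)) 1)) : ev (chi k j).fn D = 0 := by
  obtain ⟨E, hE0, hE⟩ := hasEff_iff.1 hE
  have hk0 : (0 : ℝ) < k := by exact_mod_cast NeZero.pos k
  have hk1 : (1 : ℝ) ≤ k := by exact_mod_cast NeZero.pos k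
  have hε : (1 : ℝ) / (8 * k) ≤ 1 / 8 := by
    apply one_div_le_one_div_of_le <;> linarith
  set F : (ringG k).Div := E + single (lv k (j + 1)) 1 with hF
  have hF0 : 0 ≤ F := add_nonneg hE0 (single_nonneg' _ (by norm_num))
  have hFD : F - D ∈ (ringG k).Prin := by
    have : F - D = E - (D - single (lv k (j + 1)) 1) := by rw [hF]; abel
    rw [this]; exact hE
  have hev : ∀ c : Chr (ringG k), ev c.fn D = ev c.fn F := by
    intro c
    have := c.ev_prin hFD
    rw [map_sub, sub_eq_zero] at this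
    exact this.symm
  have hdeg : Finsupp.degree F = k := by
    have := degree_of_mem_Prin hFD
    rw [map_sub, sub_eq_zero] at this
    rw [this, h.deg]
  set d := datOf (1 / (8 * k)) F hF0 hdeg (fun i => by rw [← hev]; exact h.chi i)
    (fun i => by rw [← hev]; exact h.xi i) with hd
  by_contra hne
  rw [hev] at hne
  have hc : 1 ≤ d.c (j + 1) := by
    change 1 ≤ ev (cF (j + 1)) F
    rw [hF, map_add, ev_single]
    have h1 : 0 ≤ ev (cF (j + 1)) E := ev_nonneg _ (cF_nonneg _) E hE0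
    have h2 : cF (j + 1) (lv k (j + 1)) = 1 := by simp [cF]
    rw [h2]; simp; exact h1
  have hσ : 1 ≤ d.σ (j + 1) := by
    change 1 ≤ ev (sF (j + 1)) F
    rw [hF, map_add, ev_single]
    have h1 : 0 ≤ ev (sF (j + 1)) E := ev_nonneg _ (sF_nonneg _) E hE0
    have h2 : sF (j + 1) (lv k (j + 1)) = 1 := by simp [sF]
    rw [h2]; simp; exact h1
  have hone := d.one hε (j + 1)
  rw [add_sub_cancel_right] at hone
  have hle := d.abs_n_le hε (j + 1)
  have hn0 : |d.n j| = 0 := by
    have := abs_nonneg (d.n j)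
    omega
  have hm1 : 1 ≤ d.m j := by
    by_contra hcon
    have h0 := d.m_nonneg j
    have hm0 : d.m j = 0 := by omega
    have h1 := d.z_le j
    have h2 := d.τ_le j
    rw [hm0] at h2
    have h3 : |d.z j| ≤ 0 := by simp at h2; linarith
    have h4 : d.z j = 0 := abs_nonpos_iff.1 h3
    apply hne
    rw [ev_chi]
    have h5 : ev (zF j) F = 0 := h4
    rw [h5]; simp
  have hmn : (1 : ℝ) ≤ (d.m j : ℝ) - |(d.n j : ℝ)| := by
    have h1 : |(d.n j : ℝ)| = 0 := by exact_mod_cast hn0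
    rw [h1, sub_zero]
    exact_mod_cast hm1
  have hp := h.posi
  rw [hev, ev_posi] at hp
  have hpe := d.pos_eq hε
  have hpe' : ∑ i : ZMod k, (ev (cF i) F + ev (mF i) F) • (ZMod.toAddCircle i : UnitAddCircle) +
      ((∑ i, ((ev (sF i) F + ev (mF i) F) / (2 * k) + ev (tF i) F / (4 * k)) : ℝ) :
        UnitAddCircle) = pos0 k d.X := hpe
  rw [hpe', pos0_sub, UnitAddCircle.norm_eq] at hp
  exact d.no_inside rfl j hk hmn hc hσ _ hp

end Run7.h899
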