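import Pool.Agent.Run7.h899.Chr

/-!
# The ring of `k` double edges and its characters
-/

set_option autoImplicit false

noncomputable section

namespace Run7.h899

open MetricGraph Finsupp

variable (k : ℕ) [NeZero k]

/-- first ends: the bridge `(i,0)` starts at `(i-1,true)`, the two edges `(i,1)`, `(i,2)` at
`(i,false)` -/
def rsrc : ZMod k × Fin 3 → ZMod k × Bool
  | (i, 0) => (i - 1, true)
  | (i, 1) => (i, false)
  | (i, 2) => (i, false)

/-- second ends -/
def rtgt : ZMod k × Fin 3 → ZMod k × Bool
  | (i, 0) => (i, false)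
  | (i, 1) => (i, true)
  | (i, 2) => (i, true)

/-- lengths -/
def rlen : ZMod k × Fin 3 → ℝ
  | (_, 0) => 1
  | (_, 1) => 2
  | (_, 2) => 2

theorem ring_connected (u v : ZMod k × Bool) :
    Relation.EqvGen (fun a b => ∃ e, rsrc k e = a ∧ rtgt k e = b) u v := by
  have h1 : ∀ i : ZMod k, Relation.EqvGen (fun a b => ∃ e, rsrc k e = a ∧ rtgt k e = b)
      (i, false) (i, true) := fun i => Relation.EqvGen.rel _ _ ⟨(i, 1), rfl, rfl⟩
  have h2 : ∀ i : ZMod k, Relation.EqvGen (fun a b => ∃ e, rsrc k e = a ∧ rtgt k e = b)
      (i, true) (i + 1, false) := fun i => Relation.EqvGen.rel _ _ ⟨(i + 1, 0), by simp [rsrc], rfl⟩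
  have h3 : ∀ n : ℕ, Relation.EqvGen (fun a b => ∃ e, rsrc k e = a ∧ rtgt k e = b)
      ((0 : ZMod k), false) ((n : ZMod k), false) := by
    intro n
    induction n with
    | zero => simpa using Relation.EqvGen.refl _
    | succ n ih =>
      push_cast
      exact ih.trans _ _ _ ((h1 _).trans _ _ _ (h2 _))
  have h4 : ∀ u : ZMod k × Bool, Relation.EqvGen (fun a b => ∃ e, rsrc k e = a ∧ rtgt k e = b)
      ((0 : ZMod k), false) u := by
    rintro ⟨i, b⟩
    have := h3 i.val
    rw [ZMod.natCast_zmod_val] at this
    cases b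
    · exact this
    · exact this.trans _ _ _ (h1 i)
  exact ((h4 u).symm _ _).trans _ _ _ (h4 v)

/-- The ring of `k` double edges: for every `i : ℤ/k` two edges of length two from `l i` to `r i`,
and an edge of length one from `r (i-1)` to `l i`. -/
def ringG : MetricGraph where
  V := ZMod k × Bool
  E := ZMod k × Fin 3
  src := rsrc k
  tgt := rtgt k
  len := rlen k
  len_pos := by
    rintro ⟨i, j⟩
    fin_cases j <;> simp [rlen]
  nonempty := ⟨(0, false)⟩
  connected := ring_connected k

theorem ring_genus : (ringG k).genus = k + 1 := by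
  have h1 : Fintype.card (ringG k).E = k * 3 := by
    change Fintype.card (ZMod k × Fin 3) = _
    simp [ZMod.card]
  have h2 : Fintype.card (ringG k).V = k * 2 := by
    change Fintype.card (ZMod k × Bool) = _
    simp [ZMod.card]
  unfold genus
  rw [h1, h2]
  push_cast
  ring

theorem coe_half_mul_two : (((1 / 2 : ℝ) * 2 : ℝ) : UnitAddCircle) = 0 := by
  norm_num

theorem half_add_half : (((1 / 2 : ℝ) : UnitAddCircle)) + ((1 / 2 : ℝ) : UnitAddCircle) = 0 := by
  rw [← AddCircle.coe_add]
  norm_num

theorem neg_half : -(((1 / 2 : ℝ) : UnitAddCircle)) = ((1 / 2 : ℝ) : UnitAddCircle) :=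
  neg_eq_of_add_eq_zero_left half_add_half

/-- a function on the vertices from its values at `l` and `r` -/
def vfun {A : Type*} (L R : ZMod k → A) : ZMod k × Bool → A
  | (i, false) => L i
  | (i, true) => R i

/-- a function on the edges from its values at the bridges, upper edges, lower edges -/
def efun {A : Type*} (K0 K1 K2 : ZMod k → A) : ZMod k × Fin 3 → A
  | (i, 0) => K0 i
  | (i, 1) => K1 i
  | (i, 2) => K2 i

/-- characters of the ring -/
def mkChr (K0 K1 K2 : ZMod k → ℝ) (L R : ZMod k → UnitAddCircle)
    (h0 : ∀ j, L j = R (j - 1) + ((K0 j * 1 : ℝ) : UnitAddCircle))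
    (h1 : ∀ j, R j = L j + ((K1 j * 2 : ℝ) : UnitAddCircle))
    (h2 : ∀ j, R j = L j + ((K2 j * 2 : ℝ) : UnitAddCircle))
    (hl : ∀ j, K1 j + K2 j = K0 j) (hr : ∀ j, K0 (j + 1) = K1 j + K2 j) : Chr (ringG k) where
  φ := vfun k L R
  κ := efun k K0 K1 K2
  closes := by
    rintro ⟨j, l⟩
    fin_cases l
    · exact h0 j
    · exact h1 j
    · exact h2 j
  flow := by
    rintro ⟨j, b⟩
    change ∑ e : ZMod k × Fin 3, (if rsrc k e = (j, b) then _ else 0) =
      ∑ e : ZMod k × Fin 3, (if rtgt k e = (j, b) then _ else 0)
    simp only [Fintype.sum_prod_type, Fin.sum_univ_three, rsrc, rtgt, efun]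
    cases b
    · simp only [Prod.mk.injEq, Bool.true_eq_false, and_false, if_false, and_true, zero_add,
        add_zero, Finset.sum_add_distrib, Finset.sum_ite_eq', Finset.mem_univ, if_true]
      simpa using hl j
    · simp only [Prod.mk.injEq, Bool.false_eq_true, and_false, if_false, and_true, zero_add,
        add_zero, Finset.sum_add_distrib, sub_eq_iff_eq_add, Finset.sum_ite_eq', Finset.mem_univ,
        if_true]
      exact hr j

/-- the character `χ i` -/
def chi (i : ZMod k) : Chr (ringG k) :=
  mkChr k 0 (fun j => if j = i then 1 / 2 else 0) (fun j => if j = i then -(1 / 2) else 0) 0 0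
    (by intro j; simp)
    (by
      intro j
      by_cases h : j = i
      · simp only [Pi.zero_apply, h, if_true, zero_add]
        exact coe_half_mul_two.symm
      · simp [h])
    (by
      intro j
      by_cases h : j = i
      · simp only [Pi.zero_apply, h, if_true, zero_add, neg_mul, AddCircle.coe_neg]
        rw [coe_half_mul_two, neg_zero]
      · simp [h])
    (by intro j; simp only [Pi.zero_apply]; split_ifs <;> simp)
    (by intro j; simp only [Pi.zero_apply]; split_ifs <;> simp)

/-- the character `ξ i` -/
def xi (i : ZMod k) : Chr (ringG k) :=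
  mkChr k 0 (fun j => (if j = i then 1 / 4 else 0) - (if j + 1 = i then 1 / 4 else 0))
    (fun j => -((if j = i then 1 / 4 else 0) - (if j + 1 = i then 1 / 4 else 0)))
    (fun j => (((if j = i then 1 / 2 else 0 : ℝ)) : UnitAddCircle))
    (fun j => (((if j + 1 = i then 1 / 2 else 0 : ℝ)) : UnitAddCircle))
    (by intro j; simp)
    (by
      intro j
      rw [← AddCircle.coe_add]
      have : ((if j = i then 1 / 2 else 0 : ℝ)) + ((if j = i then 1 / 4 else 0) -
          (if j + 1 = i then 1 / 4 else 0)) * 2 = (if j = i then 1 else 0 : ℝ) -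
            (if j + 1 = i then 1 / 2 else 0 : ℝ) := by
        split_ifs <;> norm_num
      rw [this, AddCircle.coe_sub]
      have h1 : (((if j = i then 1 else 0 : ℝ)) : UnitAddCircle) = 0 := by
        split_ifs
        · exact AddCircle.coe_period 1
        · simp
      rw [h1, zero_sub]
      split_ifs
      · exact neg_half.symm
      · simp)
    (by
      intro j
      rw [← AddCircle.coe_add]
      have : ((if j = i then 1 / 2 else 0 : ℝ)) + (-((if j = i then 1 / 4 else 0) -
          (if j + 1 = i then 1 / 4 else 0))) * 2 =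
            (if j + 1 = i then 1 / 2 else 0 : ℝ) := by
        split_ifs <;> norm_num
      rw [this])
    (by intro j; simp)
    (by intro j; simp)

/-- the position on the ring -/
def posi : Chr (ringG k) :=
  mkChr k (fun _ => 1 / (2 * k)) (fun _ => 1 / (4 * k)) (fun _ => 1 / (4 * k))
    (fun j => ZMod.toAddCircle j + ((1 / (2 * k) : ℝ) : UnitAddCircle))
    (fun j => ZMod.toAddCircle (j + 1))
    (by intro j; simp)
    (by
      intro j
      rw [map_add, add_assoc, ← AddCircle.coe_add]
      congr 1
      have := ZMod.toAddCircle_natCast (N := k) 1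
      rw [Nat.cast_one] at this
      rw [this]
      congr 1
      field_simp
      norm_num)
    (by
      intro j
      rw [map_add, add_assoc, ← AddCircle.coe_add]
      congr 1
      have := ZMod.toAddCircle_natCast (N := k) 1
      rw [Nat.cast_one] at this
      rw [this]
      congr 1
      field_simp
      norm_num)
    (by intro j; field_simp; norm_num)
    (by intro j; field_simp; norm_num)

end Run7.h899
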