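import Pool.Agent.Run7.h899.Near

/-!
# The segment of classes of rank one
-/

set_option autoImplicit false

noncomputable section

namespace Run7.h899

open MetricGraph Finsupp

variable {k : ℕ} [NeZero k]

/-- the point `s / k` of `[0, 1]` -/
def frac (k : ℕ) (s : ℝ) : Set.Icc (0 : ℝ) 1 := Set.projIcc 0 1 zero_le_one (s / k)

omit [NeZero k] in
theorem frac_coe (hk : 0 < k) {s : ℝ} (h0 : 0 ≤ s) (h1 : s ≤ k) : (frac k s : ℝ) = s / k := by
  have hk0 : (0 : ℝ) < k := by exact_mod_cast hk
  unfold frac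
  rw [Set.projIcc_of_mem zero_le_one ⟨by positivity, by rw [div_le_one hk0]; exact h1⟩]

/-- the divisor with one chip at distance `s / k` on every bridge -/
def cdiv (k : ℕ) [NeZero k] (s : ℝ) : (ringG k).Div := conf fun _ => frac k s

theorem sum_frac {s : ℝ} (h0 : 0 ≤ s) (h1 : s ≤ k) :
    ∑ _i : ZMod k, (frac k s : ℝ) = s := by
  have hk0 : (0 : ℝ) < k := by exact_mod_cast NeZero.pos k
  rw [frac_coe (NeZero.pos k) h0 h1]
  simp [ZMod.card]
  field_simp

theorem near_conf {D : (ringG k).Div} (hk : 1 < k) (h : NearD D)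
    (hE : ∀ j, HasEff (D - single (lv k j) 1)) :
    ∃ s ∈ Set.Ioo (5 / 4 : ℝ) (7 / 4), cdiv k s - D ∈ (ringG k).Prin := by
  have hk0 : (0 : ℝ) < k := by exact_mod_cast NeZero.pos k
  have hk1 : (2 : ℝ) ≤ k := by exact_mod_cast hk
  have hchi : ∀ j, ev (chi k j).fn D = 0 := fun j => chi_zero hk h j (hE (j + 1))
  obtain ⟨E, hE0, hE1⟩ := hasEff_iff.1 (hE 0)
  set F : (ringG k).Div := E + single (lv k 0) 1 with hF
  have hF0 : 0 ≤ F := add_nonneg hE0 (single_nonneg' _ (by norm_num))
  have hFD : F - D ∈ (ringG k).Prin := by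
    have : F - D = E - (D - single (lv k 0) 1) := by rw [hF]; abel
    rw [this]; exact hE1
  have hev : ∀ c : Chr (ringG k), ev c.fn D = ev c.fn F := by
    intro c
    have := c.ev_prin hFD
    rw [map_sub, sub_eq_zero] at this
    exact this.symm
  have hdeg : Finsupp.degree F = k := by
    have := degree_of_mem_Prin hFD
    rw [map_sub, sub_eq_zero] at this
    rw [this, h.deg]
  obtain ⟨x, hx⟩ := exists_conf hF0 hdeg (fun i => by rw [← hev]; exact hchi i)
    (fun i => by rw [← hev]; exact h.xi i)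
  have hxD : conf x - D ∈ (ringG k).Prin := by
    have := (ringG k).Prin.add_mem hx hFD
    simpa using this
  have hpos : ev (posi k).fn D = pos0 k (∑ i, (x i : ℝ)) := by
    have := (posi k).ev_prin hxD
    rw [map_sub, sub_eq_zero, posi_conf] at this
    exact this.symm
  have hp := h.posi
  rw [hpos, pos0_sub, UnitAddCircle.norm_eq] at hp
  set s := ∑ i, (x i : ℝ) with hs
  have hs0 : 0 ≤ s := Finset.sum_nonneg fun i _ => (x i).2.1
  have hsk : s ≤ k := by
    have : s ≤ ∑ _i : ZMod k, (1 : ℝ) := Finset.sum_le_sum fun i _ => (x i).2.2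
    simpa [ZMod.card] using this
  set N := round ((s - 3 / 2) / (2 * k)) with hN
  have h5 : |(s - 3 / 2) - N * (2 * k)| < 1 / 4 := by
    have : (s - 3 / 2) - N * (2 * k) = ((s - 3 / 2) / (2 * k) - N) * (2 * k) := by
      field_simp
    rw [this, abs_mul, abs_of_pos (by linarith : (0 : ℝ) < 2 * k)]
    calc |(s - 3 / 2) / (2 * k) - N| * (2 * k) < 1 / (8 * k) * (2 * k) := by
          apply mul_lt_mul_of_pos_right hp (by linarith)
      _ = 1 / 4 := by field_simp; norm_num
  have h6 := abs_lt.1 h5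
  have hN0 : N = 0 := by
    rcases lt_trichotomy N 0 with h' | h' | h'
    · exfalso
      have : (N : ℝ) ≤ -1 := by exact_mod_cast (by omega : N ≤ -1)
      nlinarith
    · exact h'
    · exfalso
      have : (1 : ℝ) ≤ N := by exact_mod_cast (by omega : 1 ≤ N)
      nlinarith
  rw [hN0] at h6
  simp only [Int.cast_zero, zero_mul, sub_zero] at h6
  refine ⟨s, ⟨by linarith, by linarith⟩, ?_⟩
  have h7 : cdiv k s - conf x ∈ (ringG k).Prin := by
    refine conf_equiv x _ ?_
    rw [sum_frac hs0 hsk]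
  have := (ringG k).Prin.add_mem h7 hxD
  simpa using this

/-! ### rank one -/

@[elab_as_elim] theorem br_surj_cases {motive : (ringG k).Pt → Prop} (hb : ∀ j x, motive (br j x))
    (hu : ∀ j t h0 h1, motive (up k j t h0 h1)) (hd : ∀ j t h0 h1, motive (dn k j t h0 h1))
    (p : (ringG k).Pt) : motive p := by
  refine pt_cases k ?_ ?_ ?_ hu hd p
  · intro j
    rw [← br_one j ⟨by norm_num, le_refl _⟩]; exact hb _ _
  · intro j
    have := hb (j + 1) ⟨0, le_refl _, by norm_num⟩
    rwa [br_zero, add_sub_cancel_right] at this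
  · intro j t h0 h1
    rw [← br_int j t ⟨h0.le, h1.le⟩ h0 h1]; exact hb _ _

theorem conf_update_sub (x : ZMod k → Set.Icc (0 : ℝ) 1) (j : ZMod k) :
    0 ≤ conf x - single (br j (x j)) 1 := by
  unfold conf
  rw [← Finset.add_sum_erase _ _ (Finset.mem_univ j), add_sub_cancel_left]
  exact Finset.sum_nonneg fun i _ => single_nonneg' _ (by norm_num)

theorem conf_update_sub2 (x : ZMod k → Set.Icc (0 : ℝ) 1) (i j : ZMod k) (hij : i ≠ j) :
    0 ≤ conf x - (single (br i (x i)) 1 + single (br j (x j)) 1) := by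
  unfold conf
  rw [← Finset.add_sum_erase _ _ (Finset.mem_univ i),
    ← Finset.add_sum_erase (Finset.univ.erase i) _ (Finset.mem_erase.2 ⟨hij.symm, Finset.mem_univ j⟩)]
  rw [← add_assoc, add_sub_cancel_left]
  exact Finset.sum_nonneg fun i _ => single_nonneg' _ (by norm_num)

theorem sum_const_erase (j : ZMod k) (a b : ℝ) :
    ∑ i, (if i = j then a else b) = a + (k - 1) * b := by
  rw [← Finset.add_sum_erase _ _ (Finset.mem_univ j)]
  have h3 : ∀ i ∈ Finset.univ.erase j, (if i = j then a else b) = b := by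
    intro i hi
    have : i ≠ j := (Finset.mem_erase.1 hi).1
    simp [this]
  rw [Finset.sum_congr rfl h3, Finset.sum_const, Finset.card_erase_of_mem (Finset.mem_univ _),
    Finset.card_univ, ZMod.card, nsmul_eq_mul]
  have h4 : ((k - 1 : ℕ) : ℝ) = k - 1 := by
    have := NeZero.pos k
    rw [Nat.cast_sub (by omega)]; norm_num
  rw [h4]
  simp

theorem exists_single_conf (hk : 4 ≤ k) {s : ℝ} (h1 : 1 < s) (h2 : s < 2) (j : ZMod k)
    (t : Set.Icc (0 : ℝ) 1) :
    ∃ x : ZMod k → Set.Icc (0 : ℝ) 1, x j = t ∧ ∑ i, (x i : ℝ) = s := by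
  have hk0 : (4 : ℝ) ≤ k := by exact_mod_cast hk
  have ht := t.2
  have hy : (s - t) / (k - 1) ∈ Set.Icc (0 : ℝ) 1 := by
    constructor
    · apply div_nonneg <;> linarith [ht.1, ht.2]
    · rw [div_le_one (by linarith)]; linarith [ht.1]
  refine ⟨fun i => if i = j then t else ⟨(s - t) / (k - 1), hy⟩, by simp, ?_⟩
  have h3 : ∀ i, (((if i = j then t else ⟨(s - t) / (k - 1), hy⟩ : Set.Icc (0 : ℝ) 1)) : ℝ) =
      if i = j then (t : ℝ) else (s - t) / (k - 1) := by
    intro i; split_ifs <;> rfl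
  simp only [h3]
  rw [sum_const_erase]
  have : (k : ℝ) - 1 ≠ 0 := by linarith
  field_simp
  ring

theorem exists_pair_conf (hk : 4 ≤ k) {s : ℝ} (h1 : 1 < s) (h2 : s < 2) (j : ZMod k) :
    ∃ x : ZMod k → Set.Icc (0 : ℝ) 1, x j = ⟨1, by norm_num, le_refl _⟩ ∧
      x (j + 1) = ⟨0, le_refl _, by norm_num⟩ ∧ ∑ i, (x i : ℝ) = s := by
  have hk0 : (4 : ℝ) ≤ k := by exact_mod_cast hk
  have : Fact (1 < k) := ⟨by omega⟩
  have hj : j + 1 ≠ j := by simp
  have hy : (s - 1) / (k - 2) ∈ Set.Icc (0 : ℝ) 1 := by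
    constructor
    · apply div_nonneg <;> linarith
    · rw [div_le_one (by linarith)]; linarith
  refine ⟨fun i => if i = j then ⟨1, by norm_num, le_refl _⟩ else
    if i = j + 1 then ⟨0, le_refl _, by norm_num⟩ else ⟨(s - 1) / (k - 2), hy⟩, by simp,
    by simp, ?_⟩
  have h3 : ∀ i, (((if i = j then ⟨1, by norm_num, le_refl _⟩ else
    if i = j + 1 then ⟨0, le_refl _, by norm_num⟩ else ⟨(s - 1) / (k - 2), hy⟩ :
      Set.Icc (0 : ℝ) 1)) : ℝ) =
      (if i = j then 1 else (s - 1) / (k - 2)) - (if i = j + 1 then (s - 1) / (k - 2) else 0) := by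
    intro i
    by_cases h : i = j
    · subst h
      simp
    · by_cases h' : i = j + 1
      · subst h'
        simp
      · simp [h, h']
  simp only [h3]
  rw [Finset.sum_sub_distrib, sum_const_erase, sum_const_erase]
  have : (k : ℝ) - 2 ≠ 0 := by linarith
  field_simp
  ring

/-- every point is in a divisor of the linear system -/
theorem hasEff_cdiv (hk : 4 ≤ k) {s : ℝ} (h1 : 1 < s) (h2 : s < 2) (p : (ringG k).Pt) :
    HasEff (cdiv k s - single p 1) := by
  have hk0 : (4 : ℝ) ≤ k := by exact_mod_cast hk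
  have : Fact (1 < k) := ⟨by omega⟩
  refine br_surj_cases ?_ ?_ ?_ p
  · intro j t
    obtain ⟨x, hxj, hsum⟩ := exists_single_conf hk h1 h2 j t
    refine hasEff_iff.2 ⟨conf x - single (br j (x j)) 1, conf_update_sub x j, ?_⟩
    rw [hxj, sub_sub_sub_cancel_right]
    refine conf_equiv _ _ ?_
    rw [sum_frac (by linarith) (by linarith), hsum]
  · intro j t h0 h0'
    obtain ⟨x, hx1, hx0, hsum⟩ := exists_pair_conf hk h1 h2 j
    have h3 := conf_update_sub2 x j (j + 1) (by simp)
    rw [hx1, hx0, br_one, br_zero, add_sub_cancel_right] at h3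
    have h4 := pair_up j t h0 h0' (by linarith) (by linarith)
    have h5 : conf x - cdiv k s ∈ (ringG k).Prin := by
      refine conf_equiv _ _ ?_
      rw [sum_frac (by linarith) (by linarith), hsum]
    refine hasEff_iff.2 ⟨(conf x - (single (lv k j) 1 + single (rv k j) 1)) +
      single (up k j (2 - t) (by linarith) (by linarith)) 1,
      add_nonneg h3 (single_nonneg' _ (by norm_num)), ?_⟩
    have := (ringG k).Prin.add_mem h4 h5
    convert this using 1
    abel
  · intro j t h0 h0'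
    obtain ⟨x, hx1, hx0, hsum⟩ := exists_pair_conf hk h1 h2 j
    have h3 := conf_update_sub2 x j (j + 1) (by simp)
    rw [hx1, hx0, br_one, br_zero, add_sub_cancel_right] at h3
    have h4 := pair_dn j t h0 h0' (by linarith) (by linarith)
    have h5 : conf x - cdiv k s ∈ (ringG k).Prin := by
      refine conf_equiv _ _ ?_
      rw [sum_frac (by linarith) (by linarith), hsum]
    refine hasEff_iff.2 ⟨(conf x - (single (lv k j) 1 + single (rv k j) 1)) +
      single (dn k j (2 - t) (by linarith) (by linarith)) 1,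
      add_nonneg h3 (single_nonneg' _ (by norm_num)), ?_⟩
    have := (ringG k).Prin.add_mem h4 h5
    convert this using 1
    abel

/-- the rank of the divisor is at least one -/
theorem rank_cdiv (hk : 4 ≤ k) {s : ℝ} (h1 : 1 < s) (h2 : s < 2) : 1 ≤ rank (cdiv k s) := by
  rw [rank_ge_iff (by norm_num)]
  intro F hF hdeg
  obtain ⟨p, rfl⟩ := eff_one hF hdeg
  exact hasEff_cdiv hk h1 h2 p

end Run7.h899
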