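import Pool.Agent.Run7.h899.Seg

/-!
# The locus near the special class is an open segment
-/

set_option autoImplicit false

noncomputable section

namespace Run7.h899

open MetricGraph Finsupp

section dim

/-- a space embedded in the line has dimension at most one -/
theorem dimLT_one_of_finite (X : Type) [TopologicalSpace X] [T1Space X] [Finite X] : DimLT 1 X := by
  intro x V _ hx
  refine ⟨{x}, ?_, rfl, by simpa using hx, ?_⟩
  · exact isOpen_discrete _
  · have : frontier ({x} : Set X) = ∅ := by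
      rw [IsClopen.frontier_eq ⟨isClosed_discrete _, isOpen_discrete _⟩]
    change IsEmpty (frontier ({x} : Set X))
    rw [this]
    exact Set.isEmpty_coe_sort.2 rfl

theorem dimLT_two_of_embedding (X : Type) [TopologicalSpace X] (f : X → ℝ)
    (hf : Topology.IsEmbedding f) : DimLT 2 X := by
  intro x V hV hx
  obtain ⟨O, hO, hOV⟩ := hf.isInducing.isOpen_iff.1 hV
  have hxO : f x ∈ O := by rw [← hOV] at hx; exact hx
  obtain ⟨δ, hδ, hball⟩ := Metric.isOpen_iff.1 hO (f x) hxO
  refine ⟨f ⁻¹' Metric.ball (f x) δ, Metric.isOpen_ball.preimage hf.continuous,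
    by simpa using hδ, by rw [← hOV]; exact Set.preimage_mono hball, ?_⟩
  have h1 : frontier (f ⁻¹' Metric.ball (f x) δ) ⊆ f ⁻¹' {f x - δ, f x + δ} := by
    refine (hf.continuous.frontier_preimage_subset _).trans (Set.preimage_mono ?_)
    rw [Real.ball_eq_Ioo]
    rw [frontier_Ioo (by linarith)]
  have h2 : (f ⁻¹' {f x - δ, f x + δ}).Finite :=
    Set.Finite.preimage hf.injective.injOn (by simp)
  have h3 : Finite (frontier (f ⁻¹' Metric.ball (f x) δ)) := (h2.subset h1).to_subtype
  have h4 : T2Space X := hf.t2Space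
  exact dimLT_one_of_finite _

end dim

variable {k : ℕ} [NeZero k]

/-- the classes of the segment -/
def gam (w : (ringG k).Pt) (s : ℝ) : (ringG k).Pic0 :=
  (ringG k).cls ⟨cdiv k s - single w (k : ℤ), by
    rw [Div0, AddMonoidHom.mem_ker, map_sub]
    unfold cdiv
    rw [degree_conf]
    simp⟩

theorem continuous_par {G : MetricGraph} (e : G.E) : Continuous (G.par e) := by
  refine continuous_iff_le_induced.2 ?_
  rw [← coinduced_le_iff_le_induced]
  exact le_iSup (fun e => TopologicalSpace.coinduced (G.par e) inferInstance) e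

theorem continuous_diffCls {G : MetricGraph} (n : ℕ) : Continuous (G.diffCls n) := by
  refine continuous_iff_le_induced.2 ?_
  rw [← coinduced_le_iff_le_induced]
  exact le_iSup (fun n => TopologicalSpace.coinduced (G.diffCls n) inferInstance) n

theorem continuous_gam (w : (ringG k).Pt) : Continuous (gam w) := by
  have h1 : gam w = fun s => (ringG k).diffCls k
      (fun i : Fin k => br ((i : ℕ) : ZMod k) (frac k s), fun _ => w) := by
    funext s
    unfold gam diffCls
    congr 1
    apply Subtype.ext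
    simp only
    rw [Finset.sum_sub_distrib]
    congr 1
    · unfold cdiv conf
      rw [Fin.sum_univ_eq_sum_range (fun i => single (br ((i : ℕ) : ZMod k) (frac k s)) (1 : ℤ)) k,
        sum_range_zmod (fun i : ZMod k => single (br i (frac k s)) (1 : ℤ))]
    · simp
  rw [h1]
  refine (continuous_diffCls k).comp (Continuous.prodMk (continuous_pi fun i => ?_)
    continuous_const)
  refine (continuous_par (G := ringG k) _).comp ?_
  unfold frac
  exact continuous_projIcc.comp (continuous_id.div_const _)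

/-- the Young diagram of the partition `(2, 2)` -/
def sq : YoungDiagram := YoungDiagram.ofRowLens [2, 2] (by decide)

theorem mem_sq {c : ℕ × ℕ} : c ∈ sq.cells ↔ c.1 < 2 ∧ c.2 < 2 := by
  obtain ⟨i, j⟩ := c
  rw [YoungDiagram.mem_cells]
  unfold sq
  rw [YoungDiagram.mem_ofRowLens]
  constructor
  · rintro ⟨h, h'⟩
    simp only [List.length_cons, List.length_nil] at h
    refine ⟨h, ?_⟩
    have : i = 0 ∨ i = 1 := by omega
    rcases this with rfl | rfl
    · simpa using h'
    · simpa using h'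
  · rintro ⟨h, h'⟩
    refine ⟨by simpa using h, ?_⟩
    have : i = 0 ∨ i = 1 := by simp at h; omega
    rcases this with rfl | rfl
    · simpa using h'
    · simpa using h'

theorem sq_rowLens : sq.rowLens = [2, 2] :=
  YoungDiagram.rowLens_ofRowLens_eq_self (by simp)

theorem sq_card : sq.card = 4 := by
  have : sq.cells = ({0, 1} : Finset ℕ) ×ˢ ({0, 1} : Finset ℕ) := by
    ext ⟨i, j⟩
    rw [mem_sq]
    simp
    omega
  unfold YoungDiagram.card
  rw [this]
  rfl

theorem hasEff_add {G : MetricGraph} {D F : G.Div} (h : HasEff D) (hF : 0 ≤ F) :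
    HasEff (D + F) := by
  refine HasEff.of_sub (F := F) hF ?_
  simpa using h

/-- the special classes lie on the locus -/
theorem gam_mem (hk : 4 ≤ k) (w : (ringG k).Pt) {s : ℝ} (h1 : 1 < s) (h2 : s < 2) :
    gam w s ∈ (ringG k).W w sq := by
  refine ⟨_, rfl, ?_⟩
  rintro ⟨i, j⟩ hc
  rw [mem_sq] at hc
  rw [ring_genus]
  simp only
  have hr := rank_cdiv hk h1 h2
  have hi : i = 0 ∨ i = 1 := by simp at hc; omega
  have hj : j = 0 ∨ j = 1 := by simp at hc; omega
  have key : ∀ a : ℤ, cdiv k s - single w (k : ℤ) + single w a =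
      cdiv k s + single w (a - k) := by
    intro a
    rw [Finsupp.single_sub]; abel
  rw [key]
  rcases hi with rfl | rfl <;> rcases hj with rfl | rfl
  · have : (k : ℤ) + 1 - ((0 : ℕ) + 1) + (0 : ℕ) - k = 0 := by push_cast; ring
    rw [this]
    simp
    linarith
  · have : (k : ℤ) + 1 - ((1 : ℕ) + 1) + (0 : ℕ) - k = -1 := by push_cast; ring
    rw [this, Nat.cast_zero, rank_ge_iff le_rfl]
    intro F hF hdeg
    rw [eff_zero hF hdeg, sub_zero, Finsupp.single_neg, ← sub_eq_add_neg]
    exact hasEff_cdiv hk h1 h2 w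
  · have : (k : ℤ) + 1 - ((0 : ℕ) + 1) + (1 : ℕ) - k = 1 := by push_cast; ring
    rw [this, Nat.cast_one, rank_ge_iff (by norm_num)]
    intro F hF hdeg
    obtain ⟨p, rfl⟩ := eff_one hF hdeg
    have h3 := hasEff_add (hasEff_cdiv hk h1 h2 p)
      (single_nonneg' w (by norm_num : (0 : ℤ) ≤ 1))
    have h4 : cdiv k s - single p 1 + single w 1 = cdiv k s + single w 1 - single p 1 := by abel
    rw [← h4]; exact h3
  · have : (k : ℤ) + 1 - ((1 : ℕ) + 1) + (1 : ℕ) - k = 0 := by push_cast; ring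
    rw [this]
    simpa using hr

/-- the neighbourhood -/
def nbd (w : (ringG k).Pt) : Set (ringG k).Pic0 :=
  {P | (∀ i, ‖(chi k i).onPic P + (k : ℤ) • (chi k i).fn w‖ < 1 / (8 * k)) ∧
    (∀ i, ‖(xi k i).onPic P + (k : ℤ) • (xi k i).fn w - ((1 / 2 : ℝ) : UnitAddCircle)‖ <
      1 / (8 * k)) ∧
    ‖(posi k).onPic P + (k : ℤ) • (posi k).fn w - pos0 k (3 / 2)‖ < 1 / (8 * k)}

theorem isOpen_nbd (w : (ringG k).Pt) : IsOpen (nbd w) := by
  have h1 : nbd w = (⋂ i, {P | ‖(chi k i).onPic P + (k : ℤ) • (chi k i).fn w‖ < 1 / (8 * k)}) ∩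
    ((⋂ i, {P | ‖(xi k i).onPic P + (k : ℤ) • (xi k i).fn w - ((1 / 2 : ℝ) : UnitAddCircle)‖ <
      1 / (8 * k)}) ∩
    {P | ‖(posi k).onPic P + (k : ℤ) • (posi k).fn w - pos0 k (3 / 2)‖ < 1 / (8 * k)}) := by
    ext P
    simp [nbd]
  rw [h1]
  refine IsOpen.inter (isOpen_iInter_of_finite fun i => ?_)
    (IsOpen.inter (isOpen_iInter_of_finite fun i => ?_) ?_)
  · exact isOpen_lt ((((chi k i).continuous_onPic).add continuous_const).norm) continuous_const
  · exact isOpen_lt (((((xi k i).continuous_onPic).add continuous_const).sub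
      continuous_const).norm) continuous_const
  · exact isOpen_lt (((((posi k).continuous_onPic).add continuous_const).sub
      continuous_const).norm) continuous_const

theorem onPic_gam (c : Chr (ringG k)) (w : (ringG k).Pt) (s : ℝ) :
    c.onPic (gam w s) + (k : ℤ) • c.fn w = ev c.fn (cdiv k s) := by
  unfold gam
  rw [Chr.onPic_cls]
  simp only
  rw [map_sub, ev_single]
  abel

theorem posi_gam (w : (ringG k).Pt) {s : ℝ} (h0 : 0 ≤ s) (h1 : s ≤ k) :
    (posi k).onPic (gam w s) + (k : ℤ) • (posi k).fn w = pos0 k s := by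
  rw [onPic_gam]
  unfold cdiv
  rw [posi_conf, sum_frac h0 h1]

omit [NeZero k] in
theorem norm_small (hk : 4 ≤ k) {s : ℝ} (hs : s ∈ Set.Ioo (5 / 4 : ℝ) (7 / 4)) :
    |(s - 3 / 2) / (2 * k)| < 1 / (8 * k) := by
  have hk0 : (4 : ℝ) ≤ k := by exact_mod_cast hk
  rw [abs_div, abs_of_pos (by linarith : (0 : ℝ) < 2 * k), div_lt_div_iff₀ (by linarith)
    (by linarith)]
  have : |s - 3 / 2| < 1 / 4 := by
    rw [abs_lt]; constructor <;> linarith [hs.1, hs.2]
  nlinarith

theorem gam_mem_nbd (hk : 4 ≤ k) (w : (ringG k).Pt) {s : ℝ}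
    (hs : s ∈ Set.Ioo (5 / 4 : ℝ) (7 / 4)) : gam w s ∈ nbd w := by
  have hk0 : (4 : ℝ) ≤ k := by exact_mod_cast hk
  have hpos : (0 : ℝ) < 1 / (8 * k) := by positivity
  refine ⟨fun i => ?_, fun i => ?_, ?_⟩
  · rw [onPic_gam]; unfold cdiv; rw [chi_conf, norm_zero]; exact hpos
  · rw [onPic_gam]; unfold cdiv; rw [xi_conf, sub_self, norm_zero]; exact hpos
  · rw [posi_gam w (by linarith [hs.1]) (by linarith [hs.2]), pos0_sub]
    have h1 := norm_small hk hs
    have h2 : ‖(((s - 3 / 2) / (2 * k) : ℝ) : UnitAddCircle)‖ = |(s - 3 / 2) / (2 * k)| := by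
      rw [AddCircle.norm_coe_eq_abs_iff _ one_ne_zero]
      have : (1 : ℝ) / (8 * k) ≤ 1 / 2 := by
        apply one_div_le_one_div_of_le <;> linarith
      rw [abs_one]
      linarith
    rw [h2]; exact h1

theorem mem_iff (hk : 4 ≤ k) (w : (ringG k).Pt) (P : (ringG k).Pic0) :
    P ∈ (ringG k).W w sq ∩ nbd w ↔ ∃ s ∈ Set.Ioo (5 / 4 : ℝ) (7 / 4), gam w s = P := by
  constructor
  · rintro ⟨⟨D, rfl, hD⟩, h1, h2, h3⟩
    have h4 := hD (1, 1) (mem_sq.2 ⟨by norm_num, by norm_num⟩)
    rw [ring_genus] at h4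
    simp only [Nat.cast_one] at h4
    have h5 : (k : ℤ) + 1 - (1 + 1) + 1 = k := by ring
    rw [h5, rank_ge_iff (by norm_num)] at h4
    have hdeg : Finsupp.degree ((D : (ringG k).Div)) = 0 := D.2
    have hev : ∀ c : Chr (ringG k), c.onPic ((ringG k).cls D) + (k : ℤ) • c.fn w =
        ev c.fn ((D : (ringG k).Div) + single w (k : ℤ)) := by
      intro c
      rw [Chr.onPic_cls, map_add, ev_single]
    have hN : NearD ((D : (ringG k).Div) + single w (k : ℤ)) := by
      refine ⟨by rw [map_add, hdeg]; simp, fun i => ?_, fun i => ?_, ?_⟩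
      · rw [← hev]; exact h1 i
      · rw [← hev]; exact h2 i
      · rw [← hev]; exact h3
    obtain ⟨s, hs, h6⟩ := near_conf (by omega) hN
      (fun j => h4 (single (lv k j) 1) (single_nonneg' _ (by norm_num)) (by simp))
    refine ⟨s, hs, ?_⟩
    unfold gam
    rw [cls_eq_iff]
    have h7 : (D : (ringG k).Div) - (cdiv k s - single w (k : ℤ)) =
      -(cdiv k s - ((D : (ringG k).Div) + single w (k : ℤ))) := by abel
    simp only
    rw [h7]
    exact (ringG k).Prin.neg_mem h6
  · rintro ⟨s, hs, rfl⟩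
    exact ⟨gam_mem hk w (by linarith [hs.1]) (by linarith [hs.2]), gam_mem_nbd hk w hs⟩

end Run7.h899
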